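import Pool.Agent.ANT.FormS

/-!
# ANT: the start of the Anderson project (and_full.md, section 7): definitions

Everything lives on the torus `Tor d L`; `ζ` is the spectral parameter `E + i η + s g0`,
`γ = Im ζ`, `M = Mx ζ` the free Green function, `ρ = Im M_0`.
-/

open Matrix Finset

noncomputable section

namespace Pool.Agent.ANT

open Pool.Agent.Kin

variable {d L : ℕ}

/-- the sup norm on the torus -/
def tn (x : Tor d L) : ℕ := univ.sup fun j => (x j).valMinAbs.natAbs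

/-- The facts about the homogeneous medium at level `s`: all sites active with variance `s`,
potential `0`, `G = M (E + i η + s g0)`; `e` is the exponent of the form bound. -/
structure Start (d L : ℕ) [NeZero L] (E η s : ℝ) (g0 : ℂ) (e c1 C1 C : ℝ) (ζ : ℂ) : Prop where
  zeta : ζ = (E : ℂ) + (η : ℂ) * Complex.I + (s : ℂ) * g0
  fix : g0 = Mx ζ (0 : Tor d L)
  lo : c1 ≤ g0.im
  hi : ‖g0‖ ≤ C1
  gam : ζ.im = η + s * g0.im
  gam0 : 0 < ζ.im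
  gam1 : ζ.im ≤ 1
  /-- Ward identity -/
  ward : ∑ x : Tor d L, ‖Mx ζ x‖ ^ 2 = g0.im / ζ.im
  /-- fourth powers -/
  t4 : ∑ x : Tor d L, ‖Mx ζ x‖ ^ 4 ≤ C * ζ.im ^ (-(3 / 4) : ℝ)
  /-- all entries -/
  sup : ∀ x : Tor d L, ‖Mx ζ x‖ ≤ C * ζ.im ^ (-(3 / 16) : ℝ)
  /-- squares -/
  sq : ‖∑ x : Tor d L, Mx ζ x ^ 2‖ ≤ C / √ζ.im
  /-- Combes-Thomas -/
  ct2 : ∑ x : Tor d L, Real.exp (ζ.im / (4 * d) * tn x) * ‖Mx ζ x‖ ^ 2 ≤ C / ζ.im
  ct : ∀ x : Tor d L, ‖Mx ζ x‖ ^ 2 ≤ C / ζ.im * Real.exp (-(ζ.im / (4 * d) * tn x))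
  mom : ∑ x : Tor d L, (tn x : ℝ) ^ 2 * ‖Mx ζ x‖ ^ 2 ≤ C / ζ.im ^ 3
  /-- lower bound of the form by the nearest neighbour form, `K = C γ^(1-2e)`, `dl = γ^(e/4)` -/
  low : ∀ u : Tor d L → ℝ, ∃ a : Tor d L → ℝ,
    DT a / (C * ζ.im ^ (1 - 2 * e)) +
      ζ.im * g0.im / (1 + ζ.im ^ (e / 4)) * ∑ x, (u x - a x) ^ 2 ≤ QT ζ ζ.im u
  /-- upper bound of the form, `C0 = C/γ` -/
  up : ∀ a : Tor d L → ℝ, QT ζ ζ.im a ≤ C / ζ.im * DT a

end Pool.Agent.ANT
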