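import Pool.Agent.ANT.FormS
import Pool.Agent.Kin.MDiag

/-!
# ANT: all entries of the free Green function are `O(log (1/γ))`

`d/dη M_x(E + i η) = i (M²)_x`, `|(M²)_x| ≤ ∑ |M|² = Im M_0 / η ≤ C/η`; integrate from `γ` to `1`.
-/

open Finset

noncomputable section

namespace Pool.Agent.ANT

open Pool.Agent.Kin

variable {d L : ℕ} [NeZero L]

/-- `(1/N) ∑ 1/|e(k) - ζ|² = Im M_0 / Im ζ` -/
lemma sum_inv_sq (ζ : ℂ) (hζ : 0 < ζ.im) :
    (1 / (L : ℝ) ^ d) * ∑ k : Tor d L, 1 / ‖(en k : ℂ) - ζ‖ ^ 2 =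
      (Mx ζ (0 : Tor d L)).im / ζ.im := by
  have hL : 0 < (L : ℝ) := Nat.cast_pos.2 (NeZero.pos L)
  have hN : 0 < (L : ℝ) ^ d := pow_pos hL _
  rw [← Mx_ward ζ hζ]
  have h4 := parseval (fun k : Tor d L => 1 / ((en k : ℂ) - ζ))
  have hLc : (L : ℂ) ^ d ≠ 0 := pow_ne_zero _ (Nat.cast_ne_zero.2 (NeZero.ne L))
  have e1 : ∀ x : Tor d L, ∑ k : Tor d L, 1 / ((en k : ℂ) - ζ) * ch x k =
      (L : ℂ) ^ d * Mx ζ x := by
    intro x
    unfold Mx
    rw [← mul_assoc, mul_one_div_cancel hLc, one_mul]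
    refine Finset.sum_congr rfl fun k _ => ?_
    rw [ch_comm]
    ring
  simp only [e1] at h4
  have e2 : ∀ x : Tor d L, ‖(L : ℂ) ^ d * Mx ζ x‖ ^ 2 =
      (L : ℝ) ^ d * ((L : ℝ) ^ d * ‖Mx ζ x‖ ^ 2) := by
    intro x
    rw [norm_mul, norm_pow, Complex.norm_natCast]
    ring
  simp only [e2] at h4
  rw [← Finset.mul_sum, ← Finset.mul_sum] at h4
  have h5 := mul_left_cancel₀ hN.ne' h4
  have h6 : ∀ k : Tor d L, ‖1 / ((en k : ℂ) - ζ)‖ ^ 2 = 1 / ‖(en k : ℂ) - ζ‖ ^ 2 := by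
    intro k
    rw [norm_div, norm_one, _root_.one_div_pow]
  simp only [h6] at h5
  rw [← h5]
  field_simp

/-- the path `E + i e^{-s}` -/
def pth (E s : ℝ) : ℂ := (E : ℂ) + ((Real.exp (-s) : ℝ) : ℂ) * Complex.I

lemma pth_im (E s : ℝ) : (pth E s).im = Real.exp (-s) := by
  unfold pth
  rw [Complex.add_im, Complex.ofReal_im, Complex.im_ofReal_mul, Complex.I_im, zero_add, mul_one]

lemma pth_deriv (E s : ℝ) :
    HasDerivAt (pth E) (-(((Real.exp (-s) : ℝ) : ℂ) * Complex.I)) s := by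
  have h1 : HasDerivAt (fun s : ℝ => Real.exp (-s)) (-Real.exp (-s)) s := by
    have := (hasDerivAt_neg s).exp
    simpa using this
  have h2 := (h1.ofReal_comp.mul_const Complex.I).const_add (E : ℂ)
  refine h2.congr_deriv ?_
  push_cast
  ring

lemma Mx_pth_deriv (E s : ℝ) (x : Tor d L) :
    HasDerivAt (fun s => Mx (pth E s) x)
      ((1 / (L : ℂ) ^ d) * ∑ k : Tor d L, ch k x *
        (-(((Real.exp (-s) : ℝ) : ℂ) * Complex.I)) / ((en k : ℂ) - pth E s) ^ 2) s := by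
  unfold Mx
  refine HasDerivAt.const_mul _ ?_
  refine HasDerivAt.fun_sum fun k _ => ?_
  have hne : (en k : ℂ) - pth E s ≠ 0 :=
    hdiag_ne _ (by rw [pth_im]; exact Real.exp_pos _) k
  have h1 : HasDerivAt (fun s => (en k : ℂ) - pth E s)
      (-(-(((Real.exp (-s) : ℝ) : ℂ) * Complex.I))) s := (pth_deriv E s).const_sub _
  have h2 := (hasDerivAt_const s (ch k x)).div h1 hne
  refine h2.congr_deriv ?_
  ring

/-- the derivative is bounded by `Im M_0` -/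
lemma Mx_pth_le (E s : ℝ) (x : Tor d L) :
    ‖(1 / (L : ℂ) ^ d) * ∑ k : Tor d L, ch k x *
        (-(((Real.exp (-s) : ℝ) : ℂ) * Complex.I)) / ((en k : ℂ) - pth E s) ^ 2‖ ≤
      (Mx (pth E s) (0 : Tor d L)).im := by
  have hp := Real.exp_pos (-s)
  have him : 0 < (pth E s).im := by rw [pth_im]; exact hp
  have h1 := sum_inv_sq (d := d) (L := L) (pth E s) him
  have hL : 0 < (L : ℝ) := Nat.cast_pos.2 (NeZero.pos L)
  have h2 : ‖∑ k : Tor d L, ch k x *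
        (-(((Real.exp (-s) : ℝ) : ℂ) * Complex.I)) / ((en k : ℂ) - pth E s) ^ 2‖ ≤
      Real.exp (-s) * ∑ k : Tor d L, 1 / ‖(en k : ℂ) - pth E s‖ ^ 2 := by
    rw [Finset.mul_sum]
    refine norm_sum_le_of_le _ fun k _ => ?_
    rw [norm_div, norm_mul, ch_norm, norm_neg, norm_mul, Complex.norm_I, Complex.norm_real,
      Real.norm_eq_abs, abs_of_pos hp, norm_pow]
    apply le_of_eq
    ring
  rw [norm_mul]
  have h3 : ‖(1 / (L : ℂ) ^ d)‖ = 1 / (L : ℝ) ^ d := by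
    rw [norm_div, norm_one, norm_pow, Complex.norm_natCast]
  rw [h3]
  calc 1 / (L : ℝ) ^ d * ‖∑ k : Tor d L, ch k x *
        (-(((Real.exp (-s) : ℝ) : ℂ) * Complex.I)) / ((en k : ℂ) - pth E s) ^ 2‖ ≤
      1 / (L : ℝ) ^ d * (Real.exp (-s) * ∑ k : Tor d L, 1 / ‖(en k : ℂ) - pth E s‖ ^ 2) :=
        mul_le_mul_of_nonneg_left h2 (by positivity)
    _ = Real.exp (-s) * ((1 / (L : ℝ) ^ d) * ∑ k : Tor d L, 1 / ‖(en k : ℂ) - pth E s‖ ^ 2) := by
        ring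
    _ = (Mx (pth E s) (0 : Tor d L)).im := by
        rw [h1, pth_im]
        field_simp

/-- ALL ENTRIES ARE `O(log (1/γ))` -/
theorem M_sup (d : ℕ) (hd : 3 ≤ d) : ∃ C : ℝ, 0 < C ∧ ∀ (L : ℕ) [NeZero L] (ζ : ℂ),
    0 < ζ.im → ζ.im ≤ 1 → 8 / ζ.im ^ 3 ≤ L → ∀ x : Tor d L,
    ‖Mx ζ x‖ ≤ C * (1 + Real.log (1 / ζ.im)) := by
  obtain ⟨C, hC, hM⟩ := mdiag d hd
  refine ⟨C + 1, by positivity, ?_⟩
  intro L _ ζ hζ hζ1 hL x
  set S : ℝ := Real.log (1 / ζ.im) with hS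
  have hS0 : 0 ≤ S := Real.log_nonneg (by rw [le_div_iff₀ hζ]; linarith)
  have hexpS : Real.exp (-S) = ζ.im := by
    rw [hS, one_div, Real.log_inv, neg_neg, Real.exp_log hζ]
  have hζe : pth ζ.re S = ζ := by
    unfold pth
    rw [hexpS]
    exact Complex.re_add_im ζ
  have hbd : ∀ s ∈ Set.Icc 0 S, (Mx (pth ζ.re s) (0 : Tor d L)).im ≤ C := by
    intro s hs
    have h1 : ζ.im ≤ (pth ζ.re s).im := by
      rw [pth_im, ← hexpS]
      exact Real.exp_le_exp.2 (by linarith [hs.2])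
    have h2 := (hM L ζ.im hζ hζ1 hL (pth ζ.re s) (pth ζ.re s) h1 h1).1
    exact ((le_abs_self _).trans (Complex.abs_im_le_norm _)).trans h2
  have h3 : ‖Mx (pth ζ.re S) x - Mx (pth ζ.re 0) x‖ ≤ C * (S - 0) :=
    norm_image_sub_le_of_norm_deriv_le_segment'
      (f := fun s => Mx (pth ζ.re s) x)
      (fun s _ => (Mx_pth_deriv ζ.re s x).hasDerivWithinAt)
      (fun s hs => (Mx_pth_le ζ.re s x).trans (hbd s (Set.Ico_subset_Icc_self hs)))
      S (Set.right_mem_Icc.2 hS0)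
  have h4 : ‖Mx (pth ζ.re 0) x‖ ≤ 1 := by
    have hi : (pth ζ.re 0).im = 1 := by rw [pth_im]; simp
    refine (Mx_le _ x).trans ?_
    have hL0 : 0 < (L : ℝ) := Nat.cast_pos.2 (NeZero.pos L)
    have h5 : ∀ k : Tor d L, 1 / ‖(en k : ℂ) - pth ζ.re 0‖ ≤ 1 := by
      intro k
      have h6 := Complex.abs_im_le_norm ((en k : ℂ) - pth ζ.re 0)
      rw [Complex.sub_im, Complex.ofReal_im, hi] at h6
      norm_num at h6
      rw [div_le_one (by linarith)]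
      exact h6
    calc 1 / (L : ℝ) ^ d * ∑ k : Tor d L, 1 / ‖(en k : ℂ) - pth ζ.re 0‖ ≤
        1 / (L : ℝ) ^ d * ∑ _k : Tor d L, (1 : ℝ) :=
          mul_le_mul_of_nonneg_left (Finset.sum_le_sum fun k _ => h5 k) (by positivity)
      _ = 1 := by
          rw [Finset.sum_const, Finset.card_univ, nsmul_eq_mul, mul_one, Fintype.card_fun,
            ZMod.card, Fintype.card_fin]
          push_cast
          field_simp
  rw [hζe, sub_zero] at h3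
  have h6 : ‖Mx ζ x‖ ≤ ‖Mx ζ x - Mx (pth ζ.re 0) x‖ + ‖Mx (pth ζ.re 0) x‖ := by
    have := norm_add_le (Mx ζ x - Mx (pth ζ.re 0) x) (Mx (pth ζ.re 0) x)
    rwa [sub_add_cancel] at this
  nlinarith

end Pool.Agent.ANT
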