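import Pool.Agent.ANT.Norm
import Pool.Agent.Kin.Hdiag

/-!
# ANT / CTh: Combes-Thomas on the torus (proved, helper52)
-/

open Matrix Finset

noncomputable section

namespace Pool.Agent.ANT

open Pool.Agent.Kin

variable {d L : ℕ}

/-- the Green function equation at every point -/
theorem green_eq [NeZero L] (ζ : ℂ) (h0 : 0 < ζ.im) (x : Tor d L) :
    (2 * (d : ℂ) - ζ) * Mx ζ x -
      ∑ j : Fin d, (Mx ζ (x + Pi.single j 1) + Mx ζ (x - Pi.single j 1)) =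
      if x = 0 then 1 else 0 := by
  rw [← hdiag_mul ζ h0 x]
  ring

lemma cth_tn_step (x e : Tor d L) (he : tn e ≤ 1) : |((tn x : ℝ) - tn (x + e))| ≤ 1 := by
  have h1 : tn (x + e) ≤ tn x + tn e := tn_add x e
  have h2 : tn x ≤ tn (x + e) + tn e := by
    have h3 := tn_add (x + e) (-e)
    rw [tn_neg, add_neg_cancel_right] at h3
    exact h3
  have h3 : (tn (x + e) : ℝ) ≤ tn x + 1 := by
    have : tn (x + e) ≤ tn x + 1 := by omega
    exact_mod_cast this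
  have h4 : (tn x : ℝ) ≤ tn (x + e) + 1 := by
    have : tn x ≤ tn (x + e) + 1 := by omega
    exact_mod_cast this
  rw [abs_le]
  constructor <;> linarith

lemma cth_exp (a t : ℝ) (ha0 : 0 ≤ a) (ha : a ≤ 1 / 8) (ht : |t| ≤ 1) :
    |Real.exp (a * t) - 1| ≤ 2 * a := by
  have h1 : |a * t| ≤ a := by
    rw [abs_mul, abs_of_nonneg ha0]
    exact mul_le_of_le_one_right ha0 ht
  have h2 : |a * t| ≤ 1 := h1.trans (by linarith)
  have h3 := Real.abs_exp_sub_one_le h2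
  linarith

/-- the twisted hopping sum -/
lemma cth_hop [NeZero L] (f : Tor d L → ℂ) (w : Tor d L → Tor d L → ℝ) (b : ℝ) (hb : 0 ≤ b)
    (e : Tor d L) (hw : ∀ x, |w x (x + e) - 1| ≤ b) (hw' : ∀ x, |w x (x - e) - 1| ≤ b) :
    |(∑ x, (starRingEnd ℂ (f x) * ((w x (x + e) : ℝ) * f (x + e)) +
      starRingEnd ℂ (f x) * ((w x (x - e) : ℝ) * f (x - e)))).im| ≤ 2 * b * ∑ x, ‖f x‖ ^ 2 := by
  have hshift : ∀ g : Tor d L → ℂ, ∑ x, g (x - e) = ∑ x, g x := fun g =>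
    Equiv.sum_comp (Equiv.subRight e) g
  have hshiftR : ∀ g : Tor d L → ℝ, ∑ x, g (x - e) = ∑ x, g x := fun g =>
    Equiv.sum_comp (Equiv.subRight e) g
  have hshiftR' : ∀ g : Tor d L → ℝ, ∑ x, g (x + e) = ∑ x, g x := fun g =>
    Equiv.sum_comp (Equiv.addRight e) g
  -- real part of the untwisted sum
  have h1 : (∑ x, (starRingEnd ℂ (f x) * f (x + e) + starRingEnd ℂ (f x) * f (x - e))).im = 0 := by
    rw [Finset.sum_add_distrib]
    have h2 : ∑ x, starRingEnd ℂ (f x) * f (x + e) =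
        ∑ x, starRingEnd ℂ (f (x - e)) * f x := by
      rw [← hshift (fun x => starRingEnd ℂ (f x) * f (x + e))]
      refine Finset.sum_congr rfl fun x _ => ?_
      rw [sub_add_cancel]
    rw [h2, ← Finset.sum_add_distrib, Complex.im_sum]
    refine Finset.sum_eq_zero fun x _ => ?_
    simp only [Complex.add_im, Complex.mul_im, Complex.conj_re, Complex.conj_im]
    ring
  have h3 : (∑ x, (starRingEnd ℂ (f x) * ((w x (x + e) : ℝ) * f (x + e)) +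
      starRingEnd ℂ (f x) * ((w x (x - e) : ℝ) * f (x - e)))) =
      (∑ x, (starRingEnd ℂ (f x) * f (x + e) + starRingEnd ℂ (f x) * f (x - e))) +
      ∑ x, (starRingEnd ℂ (f x) * (((w x (x + e) - 1 : ℝ) : ℂ) * f (x + e)) +
        starRingEnd ℂ (f x) * (((w x (x - e) - 1 : ℝ) : ℂ) * f (x - e))) := by
    rw [← Finset.sum_add_distrib]
    refine Finset.sum_congr rfl fun x _ => ?_
    push_cast
    ring
  rw [h3, Complex.add_im, h1, zero_add]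
  refine (Complex.abs_im_le_norm _).trans ?_
  refine (norm_sum_le _ _).trans ?_
  have h4 : ∀ x ∈ (univ : Finset (Tor d L)), ‖starRingEnd ℂ (f x) * (((w x (x + e) - 1 : ℝ) : ℂ) * f (x + e)) +
        starRingEnd ℂ (f x) * (((w x (x - e) - 1 : ℝ) : ℂ) * f (x - e))‖ ≤
      b * ‖f x‖ ^ 2 + b / 2 * ‖f (x + e)‖ ^ 2 + b / 2 * ‖f (x - e)‖ ^ 2 := by
    intro x _
    refine (norm_add_le _ _).trans ?_
    rw [norm_mul, norm_mul, norm_mul, norm_mul, Complex.norm_real, Complex.norm_real,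
      Real.norm_eq_abs, Real.norm_eq_abs, RCLike.norm_conj]
    have e1 : ‖f x‖ * (|w x (x + e) - 1| * ‖f (x + e)‖) ≤ b * ((‖f x‖ ^ 2 + ‖f (x + e)‖ ^ 2) / 2) := by
      have e2 : ‖f x‖ * ‖f (x + e)‖ ≤ (‖f x‖ ^ 2 + ‖f (x + e)‖ ^ 2) / 2 := by
        nlinarith [sq_nonneg (‖f x‖ - ‖f (x + e)‖)]
      calc ‖f x‖ * (|w x (x + e) - 1| * ‖f (x + e)‖)
          = |w x (x + e) - 1| * (‖f x‖ * ‖f (x + e)‖) := by ring
        _ ≤ b * ((‖f x‖ ^ 2 + ‖f (x + e)‖ ^ 2) / 2) :=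
          mul_le_mul (hw x) e2 (by positivity) hb
    have e3 : ‖f x‖ * (|w x (x - e) - 1| * ‖f (x - e)‖) ≤ b * ((‖f x‖ ^ 2 + ‖f (x - e)‖ ^ 2) / 2) := by
      have e2 : ‖f x‖ * ‖f (x - e)‖ ≤ (‖f x‖ ^ 2 + ‖f (x - e)‖ ^ 2) / 2 := by
        nlinarith [sq_nonneg (‖f x‖ - ‖f (x - e)‖)]
      calc ‖f x‖ * (|w x (x - e) - 1| * ‖f (x - e)‖)
          = |w x (x - e) - 1| * (‖f x‖ * ‖f (x - e)‖) := by ring
        _ ≤ b * ((‖f x‖ ^ 2 + ‖f (x - e)‖ ^ 2) / 2) :=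
          mul_le_mul (hw' x) e2 (by positivity) hb
    linarith
  refine (Finset.sum_le_sum h4).trans ?_
  rw [Finset.sum_add_distrib, Finset.sum_add_distrib, ← Finset.mul_sum, ← Finset.mul_sum,
    ← Finset.mul_sum, hshiftR (fun x => ‖f x‖ ^ 2), hshiftR' (fun x => ‖f x‖ ^ 2)]
  linarith

/-- exponentially weighted mass, with `|M_0|` on the right -/
theorem ct_l2M [NeZero L] (hd : 1 ≤ d) (ζ : ℂ) (h0 : 0 < ζ.im) (h1 : ζ.im ≤ 1) :
    ∑ x : Tor d L, Real.exp (ζ.im / (4 * d) * tn x) * ‖Mx ζ x‖ ^ 2 ≤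
      2 * ‖Mx ζ (0 : Tor d L)‖ / ζ.im := by
  have hd0 : (1 : ℝ) ≤ d := by exact_mod_cast hd
  obtain ⟨a, ha⟩ : ∃ a : ℝ, a = ζ.im / (8 * d) := ⟨_, rfl⟩
  have ha0 : 0 ≤ a := by rw [ha]; positivity
  have ha1 : a ≤ 1 / 8 := by
    rw [ha, div_le_div_iff₀ (by positivity) (by norm_num)]
    nlinarith
  have had : 4 * a * d = ζ.im / 2 := by
    rw [ha]
    field_simp
    ring
  obtain ⟨f, hfd⟩ : ∃ f : Tor d L → ℂ, ∀ x, f x = ((Real.exp (a * tn x) : ℝ) : ℂ) * Mx ζ x :=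
    ⟨_, fun _ => rfl⟩
  obtain ⟨w, hwd⟩ : ∃ w : Tor d L → Tor d L → ℝ,
      ∀ x y, w x y = Real.exp (a * ((tn x : ℝ) - tn y)) := ⟨_, fun _ _ => rfl⟩
  obtain ⟨S, hS⟩ : ∃ S : ℝ, S = ∑ x, ‖f x‖ ^ 2 := ⟨_, rfl⟩
  have hfn : ∀ x, ‖f x‖ ^ 2 = Real.exp (ζ.im / (4 * d) * tn x) * ‖Mx ζ x‖ ^ 2 := by
    intro x
    rw [hfd, norm_mul, Complex.norm_real, Real.norm_eq_abs, abs_of_pos (Real.exp_pos _), mul_pow,
      ← Real.exp_nat_mul]
    congr 2
    rw [ha]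
    push_cast
    field_simp
    ring
  have hSe : ∑ x : Tor d L, Real.exp (ζ.im / (4 * d) * tn x) * ‖Mx ζ x‖ ^ 2 = S := by
    rw [hS]
    exact Finset.sum_congr rfl fun x _ => (hfn x).symm
  rw [hSe]
  have hS0 : 0 ≤ S := by rw [hS]; positivity
  -- twisted equation
  have hwf : ∀ x y, ((w x y : ℝ) : ℂ) * f y = ((Real.exp (a * tn x) : ℝ) : ℂ) * Mx ζ y := by
    intro x y
    rw [hwd, hfd, ← mul_assoc, ← Complex.ofReal_mul, ← Real.exp_add]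
    congr 3
    ring
  have heq : ∀ x, (2 * (d : ℂ) - ζ) * f x -
      ∑ j : Fin d, (((w x (x + Pi.single j 1) : ℝ) : ℂ) * f (x + Pi.single j 1) +
        ((w x (x - Pi.single j 1) : ℝ) : ℂ) * f (x - Pi.single j 1)) = if x = 0 then 1 else 0 := by
    intro x
    have h2 := green_eq ζ h0 x
    simp only [hwf, ← mul_add]
    rw [← Finset.mul_sum]
    have h3 : (2 * (d : ℂ) - ζ) * f x - ((Real.exp (a * tn x) : ℝ) : ℂ) *
        ∑ j : Fin d, (Mx ζ (x + Pi.single j 1) + Mx ζ (x - Pi.single j 1)) =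
        ((Real.exp (a * tn x) : ℝ) : ℂ) * ((2 * (d : ℂ) - ζ) * Mx ζ x -
        ∑ j : Fin d, (Mx ζ (x + Pi.single j 1) + Mx ζ (x - Pi.single j 1))) := by
      rw [hfd]
      ring
    rw [h3, h2]
    by_cases hx : x = 0
    · subst hx
      simp [tn_zero]
    · simp [hx]
  -- sum with conj f
  have hsum : ∑ x, starRingEnd ℂ (f x) * ((2 * (d : ℂ) - ζ) * f x) -
      ∑ j : Fin d, ∑ x, (starRingEnd ℂ (f x) * ((w x (x + Pi.single j 1) : ℝ) * f (x + Pi.single j 1)) +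
        starRingEnd ℂ (f x) * ((w x (x - Pi.single j 1) : ℝ) * f (x - Pi.single j 1))) =
      starRingEnd ℂ (f 0) := by
    rw [Finset.sum_comm, ← Finset.sum_sub_distrib]
    have h2 : ∀ x, starRingEnd ℂ (f x) * ((2 * (d : ℂ) - ζ) * f x) -
        ∑ j : Fin d, (starRingEnd ℂ (f x) * ((w x (x + Pi.single j 1) : ℝ) * f (x + Pi.single j 1)) +
        starRingEnd ℂ (f x) * ((w x (x - Pi.single j 1) : ℝ) * f (x - Pi.single j 1))) =
        starRingEnd ℂ (f x) * (if x = 0 then 1 else 0) := by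
      intro x
      rw [← heq x, mul_sub, Finset.mul_sum]
      congr 1
      refine Finset.sum_congr rfl fun j _ => ?_
      ring
    rw [Finset.sum_congr rfl fun x _ => h2 x]
    simp
  have him := congrArg Complex.im hsum
  rw [Complex.sub_im, Complex.im_sum, Complex.im_sum] at him
  have hdiag : ∑ x, (starRingEnd ℂ (f x) * ((2 * (d : ℂ) - ζ) * f x)).im = -ζ.im * S := by
    rw [hS, Finset.mul_sum]
    refine Finset.sum_congr rfl fun x _ => ?_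
    have h2 : starRingEnd ℂ (f x) * ((2 * (d : ℂ) - ζ) * f x) =
        (2 * (d : ℂ) - ζ) * ((‖f x‖ ^ 2 : ℝ) : ℂ) := by
      have h3 : starRingEnd ℂ (f x) * f x = ((‖f x‖ ^ 2 : ℝ) : ℂ) := by
        rw [Complex.conj_mul']
        push_cast
        rfl
      rw [← h3]
      ring
    rw [h2, Complex.im_mul_ofReal]
    simp
  rw [hdiag] at him
  have hhop : |∑ j : Fin d, (∑ x, (starRingEnd ℂ (f x) * ((w x (x + Pi.single j 1) : ℝ) * f (x + Pi.single j 1)) +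
        starRingEnd ℂ (f x) * ((w x (x - Pi.single j 1) : ℝ) * f (x - Pi.single j 1)))).im| ≤
      ζ.im / 2 * S := by
    refine (Finset.abs_sum_le_sum_abs _ _).trans ?_
    have h2 : ∀ j ∈ (univ : Finset (Fin d)),
        |(∑ x, (starRingEnd ℂ (f x) * ((w x (x + Pi.single j 1) : ℝ) * f (x + Pi.single j 1)) +
        starRingEnd ℂ (f x) * ((w x (x - Pi.single j 1) : ℝ) * f (x - Pi.single j 1)))).im| ≤
        2 * (2 * a) * S := by
      intro j _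
      rw [hS]
      refine cth_hop f w (2 * a) (by linarith) (Pi.single j 1) ?_ ?_
      · intro x
        rw [hwd]
        exact cth_exp a _ ha0 ha1 (cth_tn_step x _ (tn_single j))
      · intro x
        rw [hwd]
        refine cth_exp a _ ha0 ha1 ?_
        rw [sub_eq_add_neg x (Pi.single j 1)]
        refine cth_tn_step x _ ?_
        rw [tn_neg]
        exact tn_single j
    refine (Finset.sum_le_sum h2).trans ?_
    rw [Finset.sum_const, Finset.card_univ, Fintype.card_fin, nsmul_eq_mul]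
    have : (d : ℝ) * (2 * (2 * a) * S) = (4 * a * d) * S := by ring
    rw [this, had]
  have hf0 : ‖f 0‖ ^ 2 ≤ S := by
    rw [hS]
    exact Finset.single_le_sum (f := fun x => ‖f x‖ ^ 2) (fun x _ => by positivity) (Finset.mem_univ 0)
  have hf1 : |(starRingEnd ℂ (f 0)).im| ≤ ‖f 0‖ := by
    refine (Complex.abs_im_le_norm _).trans (le_of_eq ?_)
    rw [RCLike.norm_conj]
  have hmain : ζ.im / 2 * S ≤ ‖f 0‖ := by
    have h3 := abs_le.1 hhop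
    have h4 := abs_le.1 hf1
    linarith [h3.1, h3.2, h4.1, h4.2]
  have hf00 : ‖f 0‖ = ‖Mx ζ (0 : Tor d L)‖ := by
    rw [hfd, tn_zero]
    simp
  rw [hf00] at hmain
  rw [le_div_iff₀ h0]
  linarith

theorem ct_l2 [NeZero L] (hd : 1 ≤ d) (ζ : ℂ) (h0 : 0 < ζ.im) (h1 : ζ.im ≤ 1) :
    ∑ x : Tor d L, Real.exp (ζ.im / (4 * d) * tn x) * ‖Mx ζ x‖ ^ 2 ≤ 4 / ζ.im ^ 2 := by
  have h := ct_l2M (L := L) hd ζ h0 h1
  obtain ⟨S, hS⟩ : ∃ S : ℝ, S = ∑ x : Tor d L, Real.exp (ζ.im / (4 * d) * tn x) *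
    ‖Mx ζ x‖ ^ 2 := ⟨_, rfl⟩
  rw [← hS] at h ⊢
  have hS0 : 0 ≤ S := by rw [hS]; positivity
  have hf0 : ‖Mx ζ (0 : Tor d L)‖ ^ 2 ≤ S := by
    rw [hS]
    refine le_trans ?_ (Finset.single_le_sum (f := fun x : Tor d L =>
      Real.exp (ζ.im / (4 * d) * tn x) * ‖Mx ζ x‖ ^ 2) (fun x _ => by positivity)
      (Finset.mem_univ (0 : Tor d L)))
    show _ ≤ Real.exp (ζ.im / (4 * d) * tn (0 : Tor d L)) * ‖Mx ζ (0 : Tor d L)‖ ^ 2
    rw [tn_zero]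
    simp
  have hmain : ζ.im / 2 * S ≤ ‖Mx ζ (0 : Tor d L)‖ := by
    rw [le_div_iff₀ h0] at h
    linarith
  have h5 : (ζ.im / 2 * S) ^ 2 ≤ S := by
    have : (ζ.im / 2 * S) ^ 2 ≤ ‖Mx ζ (0 : Tor d L)‖ ^ 2 :=
      pow_le_pow_left₀ (by positivity) hmain 2
    linarith
  rcases hS0.eq_or_lt with h6 | h6
  · rw [← h6]; positivity
  · have h7 : (ζ.im / 2) ^ 2 * S ≤ 1 := by
      have h8 : ((ζ.im / 2) ^ 2 * S) * S ≤ 1 * S := by
        calc ((ζ.im / 2) ^ 2 * S) * S = (ζ.im / 2 * S) ^ 2 := by ring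
          _ ≤ S := h5
          _ = 1 * S := by ring
      exact le_of_mul_le_mul_right h8 h6
    rw [le_div_iff₀ (by positivity)]
    nlinarith

/-- pointwise bound, with `|M_0|` on the right -/
theorem ct_ptM [NeZero L] (hd : 1 ≤ d) (ζ : ℂ) (h0 : 0 < ζ.im) (h1 : ζ.im ≤ 1) (x : Tor d L) :
    ‖Mx ζ x‖ ^ 2 ≤
      2 * ‖Mx ζ (0 : Tor d L)‖ / ζ.im * Real.exp (-(ζ.im / (4 * d) * tn x)) := by
  have h := ct_l2M hd ζ h0 h1 (L := L)
  have h2 : Real.exp (ζ.im / (4 * d) * tn x) * ‖Mx ζ x‖ ^ 2 ≤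
      2 * ‖Mx ζ (0 : Tor d L)‖ / ζ.im :=
    (Finset.single_le_sum (f := fun x : Tor d L => Real.exp (ζ.im / (4 * d) * tn x) * ‖Mx ζ x‖ ^ 2)
      (fun x _ => by positivity) (Finset.mem_univ x)).trans h
  rw [Real.exp_neg, ← div_eq_mul_inv, le_div_iff₀ (Real.exp_pos _), mul_comm]
  exact h2

/-- the second moment -/
theorem ct_momM [NeZero L] (hd : 1 ≤ d) (ζ : ℂ) (h0 : 0 < ζ.im) (h1 : ζ.im ≤ 1) :
    ∑ x : Tor d L, (tn x : ℝ) ^ 2 * ‖Mx ζ x‖ ^ 2 ≤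
      64 * d ^ 2 * ‖Mx ζ (0 : Tor d L)‖ / ζ.im ^ 3 := by
  have h := ct_l2M hd ζ h0 h1 (L := L)
  have hd0 : (0 : ℝ) < d := by exact_mod_cast hd
  have key : ∀ t : ℝ, 0 ≤ t → t ^ 2 ≤ 32 * d ^ 2 / ζ.im ^ 2 * Real.exp (ζ.im / (4 * d) * t) := by
    intro t ht
    have h2 : 0 ≤ ζ.im / (4 * d) * t := by positivity
    have h3 := Real.quadratic_le_exp_of_nonneg h2
    have h4 : (ζ.im / (4 * d) * t) ^ 2 / 2 ≤ Real.exp (ζ.im / (4 * d) * t) := by linarith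
    have h5 : t ^ 2 = 32 * d ^ 2 / ζ.im ^ 2 * ((ζ.im / (4 * d) * t) ^ 2 / 2) := by
      field_simp
      ring
    rw [h5]
    exact mul_le_mul_of_nonneg_left h4 (by positivity)
  calc ∑ x : Tor d L, (tn x : ℝ) ^ 2 * ‖Mx ζ x‖ ^ 2
      ≤ ∑ x : Tor d L, 32 * d ^ 2 / ζ.im ^ 2 *
        (Real.exp (ζ.im / (4 * d) * tn x) * ‖Mx ζ x‖ ^ 2) := by
        refine Finset.sum_le_sum fun x _ => ?_
        have h2 := mul_le_mul_of_nonneg_right (key (tn x) (Nat.cast_nonneg _))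
          (sq_nonneg ‖Mx ζ x‖)
        linarith
    _ = 32 * d ^ 2 / ζ.im ^ 2 * ∑ x : Tor d L,
        Real.exp (ζ.im / (4 * d) * tn x) * ‖Mx ζ x‖ ^ 2 := by rw [Finset.mul_sum]
    _ ≤ 32 * d ^ 2 / ζ.im ^ 2 * (2 * ‖Mx ζ (0 : Tor d L)‖ / ζ.im) :=
        mul_le_mul_of_nonneg_left h (by positivity)
    _ = _ := by
        field_simp
        ring

theorem ct_pt [NeZero L] (hd : 1 ≤ d) (ζ : ℂ) (h0 : 0 < ζ.im) (h1 : ζ.im ≤ 1) (x : Tor d L) :
    ‖Mx ζ x‖ ≤ 2 / ζ.im * Real.exp (-(ζ.im / (8 * d) * tn x)) := by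
  have h := ct_l2 hd ζ h0 h1 (L := L)
  have h2 : Real.exp (ζ.im / (4 * d) * tn x) * ‖Mx ζ x‖ ^ 2 ≤ 4 / ζ.im ^ 2 :=
    (Finset.single_le_sum (f := fun x : Tor d L => Real.exp (ζ.im / (4 * d) * tn x) * ‖Mx ζ x‖ ^ 2)
      (fun x _ => by positivity) (Finset.mem_univ x)).trans h
  have h3 : ‖Mx ζ x‖ ^ 2 ≤ (2 / ζ.im * Real.exp (-(ζ.im / (8 * d) * tn x))) ^ 2 := by
    have h4 : (2 / ζ.im * Real.exp (-(ζ.im / (8 * d) * tn x))) ^ 2 =
        4 / ζ.im ^ 2 * Real.exp (-(ζ.im / (4 * d) * tn x)) := by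
      rw [mul_pow, div_pow, ← Real.exp_nat_mul]
      congr 2
      · norm_num
      · push_cast
        have : (0 : ℝ) < d := by exact_mod_cast hd
        field_simp
        ring
    rw [h4, Real.exp_neg, ← div_eq_mul_inv, le_div_iff₀ (Real.exp_pos _), mul_comm]
    exact h2
  exact (pow_le_pow_iff_left₀ (norm_nonneg _) (by positivity) (by norm_num)).1 h3

/-- the mass outside a ball -/
theorem ct_tail [NeZero L] (hd : 1 ≤ d) (ζ : ℂ) (h0 : 0 < ζ.im) (h1 : ζ.im ≤ 1) (R : ℕ) :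
    ∑ x ∈ (univ : Finset (Tor d L)).filter (fun x => ¬ tn x ≤ R), ‖Mx ζ x‖ ^ 2 ≤
      4 / ζ.im ^ 2 * Real.exp (-(ζ.im / (4 * d) * R)) := by
  have h := ct_l2 hd ζ h0 h1 (L := L)
  have hd0 : (0 : ℝ) < d := by exact_mod_cast hd
  rw [Real.exp_neg, ← div_eq_mul_inv, le_div_iff₀ (Real.exp_pos _), mul_comm]
  refine le_trans ?_ h
  rw [Finset.mul_sum]
  refine le_trans (Finset.sum_le_sum (g := fun x : Tor d L =>
    Real.exp (ζ.im / (4 * d) * tn x) * ‖Mx ζ x‖ ^ 2) ?_) ?_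
  · intro x hx
    rw [Finset.mem_filter] at hx
    refine mul_le_mul_of_nonneg_right ?_ (by positivity)
    refine Real.exp_le_exp.2 ?_
    have h2 : (R : ℝ) ≤ tn x := by exact_mod_cast (not_le.1 hx.2).le
    exact mul_le_mul_of_nonneg_left h2 (by positivity)
  · exact Finset.sum_le_sum_of_subset_of_nonneg (Finset.filter_subset _ _)
      (fun x _ _ => by positivity)

end Pool.Agent.ANT
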