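import Pool.Agent.ANT.FormS
import Pool.Agent.Kin.Gap

/-!
# ANT: the lower form bound (H4low) of the free medium
-/

open Matrix Finset

noncomputable section

namespace Pool.Agent.ANT

open Pool.Agent.Kin

lemma en_le_rh {d L : ℕ} [NeZero L] (q : Tor d L) : en q ≤ 4 * d * rh q ^ 2 := by
  have h : ∀ j : Fin d, 2 - 2 * Real.cos (ang (q j)) ≤ 4 * rh q ^ 2 := by
    intro j
    have e1 := Real.cos_two_mul (ang (q j) / 2)
    have e2 := Real.sin_sq_add_cos_sq (ang (q j) / 2)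
    rw [show 2 * (ang (q j) / 2) = ang (q j) by ring] at e1
    have h1 : |Real.sin (ang (q j) / 2)| ≤ rh q :=
      le_ciSup (Set.finite_range (fun j => |Real.sin (ang (q j) / 2)|)).bddAbove j
    have h2 : Real.sin (ang (q j) / 2) ^ 2 ≤ rh q ^ 2 := by
      rw [← sq_abs]
      exact pow_le_pow_left₀ (abs_nonneg _) h1 2
    nlinarith
  unfold en
  calc ∑ j, (2 - 2 * Real.cos (ang (q j))) ≤ ∑ _j : Fin d, 4 * rh q ^ 2 :=
        Finset.sum_le_sum fun j _ => h j
    _ = 4 * d * rh q ^ 2 := by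
        rw [Finset.sum_const, Finset.card_univ, Fintype.card_fin, nsmul_eq_mul]
        ring

theorem form_low (d : ℕ) (hd : 3 ≤ d) (e c0 : ℝ) (he : 0 < e) (he1 : e < 1) (hc0 : 0 < c0) :
    ∃ C γ0 : ℝ, 0 < C ∧ 0 < γ0 ∧ ∀ (L : ℕ) [NeZero L] (ζ : ℂ),
    0 < ζ.im → ζ.im ≤ γ0 → 8 / ζ.im ^ 3 ≤ L → c0 ≤ (Mx ζ (0 : Tor d L)).im →
    ∀ u : Tor d L → ℝ, ∃ a : Tor d L → ℝ,
      DT a / (C * ζ.im ^ (1 - 2 * e)) +
        ζ.im * (Mx ζ (0 : Tor d L)).im / (1 + ζ.im ^ (e / 4)) * ∑ x, (u x - a x) ^ 2 ≤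
      QT ζ ζ.im u := by
  obtain ⟨c, γ1, hc, hγ1, hgap⟩ := ST_gap d hd e c0 he he1 hc0
  obtain ⟨B, hB, hbd⟩ := ST_bound d hd
  have hd0 : (0 : ℝ) < d := by
    have : 0 < d := by omega
    exact_mod_cast this
  -- choice of `γ0`
  have t1 : Filter.Tendsto (fun γ : ℝ => 2 * B * ((1 + Real.log (1 / γ)) * γ ^ (e / 4)))
      (nhdsWithin 0 (Set.Ioi 0)) (nhds 0) := by
    have a1 := tendsto_log_mul_rpow_nhdsGT_zero (r := e / 4) (by positivity)
    have a2 : Filter.Tendsto (fun γ : ℝ => γ ^ (e / 4)) (nhdsWithin 0 (Set.Ioi 0)) (nhds 0) := by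
      have a3 := (Real.continuousAt_rpow_const 0 (e / 4) (Or.inr (by positivity))).tendsto
      rw [Real.zero_rpow (by positivity)] at a3
      exact a3.mono_left nhdsWithin_le_nhds
    have a4 := (a2.sub a1).const_mul (2 * B)
    rw [sub_zero, mul_zero] at a4
    refine a4.congr fun γ => ?_
    rw [one_div, Real.log_inv]
    ring
  have ev1 := t1.eventually (ge_mem_nhds hc0)
  have ev3 : ∀ᶠ γ : ℝ in nhdsWithin 0 (Set.Ioi 0), γ ≤ 1 :=
    (ge_mem_nhds (show (0 : ℝ) < 1 by norm_num)).filter_mono nhdsWithin_le_nhds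
  obtain ⟨γ2, hγ2, hsub⟩ := mem_nhdsGT_iff_exists_Ioc_subset.1 (ev1.and ev3)
  have hγ2' : 0 < γ2 := hγ2
  refine ⟨4 * d / (c * c0), min γ1 γ2, by positivity, lt_min hγ1 hγ2', ?_⟩
  intro L _ ζ hζ hζ0 hL hM u
  obtain ⟨k1, k3⟩ := hsub ⟨hζ, hζ0.trans (min_le_right _ _)⟩
  have hgap' := hgap L ζ hζ (hζ0.trans (min_le_left _ _)) hL hM
  have hST0 := ST_zero (d := d) (L := L) ζ hζ
  replace k1 := k1
  set γ : ℝ := ζ.im with hγ
  set M0 : ℝ := (Mx ζ (0 : Tor d L)).im with hM0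
  set S0 : ℝ := ST ζ (0 : Tor d L) with hS0
  set δ : ℝ := γ ^ (e / 4) with hδ
  set r0 : ℝ := γ ^ (1 - e) with hr0
  have hr0p : 0 < r0 := Real.rpow_pos_of_pos hζ _
  have hδp : 0 < δ := Real.rpow_pos_of_pos hζ _
  have hδ1 : δ ≤ 1 := Real.rpow_le_one hζ.le k3 (by positivity)
  have hrA : r0 * (δ * δ) ^ 2 = γ := by
    have e1 : (δ * δ) ^ 2 = γ ^ e := by
      rw [hδ, ← Real.rpow_add hζ, sq, ← Real.rpow_add hζ]
      congr 1
      ring
    rw [e1, hr0, ← Real.rpow_add hζ, show 1 - e + e = 1 by ring, Real.rpow_one]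
  have hK : r0 ^ 2 = γ * γ ^ (1 - 2 * e) := by
    have e2 : γ * γ ^ (1 - 2 * e) = γ ^ (1 + (1 - 2 * e)) := by
      rw [Real.rpow_add hζ, Real.rpow_one]
    rw [e2, hr0, sq, ← Real.rpow_add hζ]
    congr 1
    ring
  have hkp : 0 < γ ^ (1 - 2 * e) := Real.rpow_pos_of_pos hζ _
  have hlog : 0 ≤ 1 + Real.log (1 / γ) := by
    have : 0 ≤ Real.log (1 / γ) := Real.log_nonneg (by rw [le_div_iff₀ hζ]; linarith)
    linarith
  have hM0p : 0 < M0 := lt_of_lt_of_le hc0 hM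
  have hS0' : S0 = M0 / γ := hST0
  have hS0p : 0 < S0 := by rw [hS0']; positivity
  have hm : γ * M0 = γ ^ 2 * S0 := by rw [hS0']; field_simp
  have hmu : 0 < γ * M0 / (1 + δ) := by positivity
  rw [QT_eq]
  refine form_of_symbol (fun q => γ ^ 2 * (S0 - ST ζ q)) (4 * d / (c * c0) * γ ^ (1 - 2 * e))
    (γ * M0 / (1 + δ)) (by positivity) hmu ?_ u
  intro q
  have hs : 0 ≤ en q / (4 * d / (c * c0) * γ ^ (1 - 2 * e)) :=
    div_nonneg (en_nonneg q) (by positivity)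
  set s : ℝ := en q / (4 * d / (c * c0) * γ ^ (1 - 2 * e)) with hsdef
  set mu : ℝ := γ * M0 / (1 + δ) with hmudef
  have hle1 : s * mu / (s + mu) ≤ mu := by
    rw [div_le_iff₀ (by positivity)]
    nlinarith
  have hle2 : s * mu / (s + mu) ≤ s := by
    rw [div_le_iff₀ (by positivity)]
    nlinarith
  rcases le_or_gt r0 (rh q) with hbig | hsmall
  · refine hle1.trans ?_
    have hq : 0 < rh q := lt_of_lt_of_le hr0p hbig
    have h1 := hbd L ζ hζ k3 hL q hq
    have h2 : γ / (δ * δ) ≤ √(rh q * γ) := by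
      apply Real.le_sqrt_of_sq_le
      have h3 : (γ / (δ * δ)) ^ 2 = γ * r0 := by
        rw [div_pow, div_eq_iff (by positivity)]
        calc γ ^ 2 = γ * (r0 * (δ * δ) ^ 2) := by rw [hrA]; ring
          _ = γ * r0 * (δ * δ) ^ 2 := by ring
      rw [h3]
      have h4 : r0 * γ ≤ rh q * γ := mul_le_mul_of_nonneg_right hbig hζ.le
      linarith
    have h3 : B * (1 + Real.log (1 / γ)) / √(rh q * γ) ≤ δ / 2 * S0 := by
      calc B * (1 + Real.log (1 / γ)) / √(rh q * γ)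
          ≤ B * (1 + Real.log (1 / γ)) / (γ / (δ * δ)) :=
            div_le_div_of_nonneg_left (mul_nonneg hB.le hlog) (by positivity) h2
        _ = δ / 2 * ((2 * B * ((1 + Real.log (1 / γ)) * δ)) / γ) := by
            field_simp
        _ ≤ δ / 2 * (c0 / γ) := by
            apply mul_le_mul_of_nonneg_left _ (by positivity)
            exact div_le_div_of_nonneg_right k1 hζ.le
        _ ≤ δ / 2 * S0 := by
            apply mul_le_mul_of_nonneg_left _ (by positivity)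
            rw [hS0']
            exact div_le_div_of_nonneg_right hM hζ.le
    have h4 : ST ζ q ≤ δ / 2 * S0 := (le_abs_self _).trans (h1.trans h3)
    have h5 : mu ≤ γ ^ 2 * (S0 * (1 - δ / 2)) := by
      rw [hmudef, hm, div_le_iff₀ (by positivity)]
      have h6 : 1 ≤ (1 - δ / 2) * (1 + δ) := by nlinarith
      calc γ ^ 2 * S0 = γ ^ 2 * S0 * 1 := by ring
        _ ≤ γ ^ 2 * S0 * ((1 - δ / 2) * (1 + δ)) :=
            mul_le_mul_of_nonneg_left h6 (by positivity)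
        _ = _ := by ring
    refine h5.trans ?_
    apply mul_le_mul_of_nonneg_left _ (by positivity)
    linarith
  · refine hle2.trans ?_
    have h1 := hgap' q
    have hρ0 := rh_nonneg q
    have h2 : (rh q / r0) ^ 2 ≤ 1 := by
      rw [sq_le_one_iff_abs_le_one, abs_of_nonneg (by positivity), div_le_one hr0p]
      exact hsmall.le
    rw [min_eq_right h2] at h1
    have h3 : s ≤ c * (γ * M0) * (rh q / r0) ^ 2 := by
      have h4 := en_le_rh q
      have h5 : c * (γ * c0) * (rh q / r0) ^ 2 ≤ c * (γ * M0) * (rh q / r0) ^ 2 := by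
        apply mul_le_mul_of_nonneg_right _ (by positivity)
        apply mul_le_mul_of_nonneg_left _ hc.le
        exact mul_le_mul_of_nonneg_left hM hζ.le
      refine le_trans ?_ h5
      rw [hsdef, div_le_iff₀ (by positivity), div_pow, hK]
      have h6 : c * (γ * c0) * (rh q ^ 2 / (γ * γ ^ (1 - 2 * e))) *
          (4 * d / (c * c0) * γ ^ (1 - 2 * e)) = 4 * d * rh q ^ 2 := by
        field_simp
      rw [h6]
      exact h4
    refine h3.trans ?_
    rw [hm]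
    calc c * (γ ^ 2 * S0) * (rh q / r0) ^ 2 = γ ^ 2 * (c * S0 * (rh q / r0) ^ 2) := by ring
      _ ≤ γ ^ 2 * (S0 - ST ζ q) := mul_le_mul_of_nonneg_left h1 (by positivity)

end Pool.Agent.ANT
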