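import Pool.Agent.ANT.FormS
import Pool.Agent.Kin.Gap

/-!
# ANT: the upper form bound (H4up) of the free medium

`∑ |M(x)|² |x|² ≤ d π² Im M(0) / (Im ζ)³` (only Parseval), hence `Q ≤ (C/γ) D`.
-/

open Matrix Finset

noncomputable section

namespace Pool.Agent.ANT

open Pool.Agent.Kin

variable {d L : ℕ} [NeZero L]

/-- `∑ |M(x)|² |1 - ch q x|²` in Fourier space -/
lemma sum_M_ch (ζ : ℂ) (q : Tor d L) :
    ∑ x : Tor d L, ‖Mx ζ x‖ ^ 2 * ‖1 - ch q x‖ ^ 2 =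
      (1 / (L : ℝ) ^ d) * ∑ k : Tor d L,
        ‖1 / ((en k : ℂ) - ζ) - 1 / ((en (k - q) : ℂ) - ζ)‖ ^ 2 := by
  have hL : (L : ℝ) ^ d ≠ 0 := pow_ne_zero _ (Nat.cast_ne_zero.2 (NeZero.ne L))
  have hLc : (L : ℂ) ^ d ≠ 0 := pow_ne_zero _ (Nat.cast_ne_zero.2 (NeZero.ne L))
  have h := parseval (fun k : Tor d L => 1 / ((en k : ℂ) - ζ) - 1 / ((en (k - q) : ℂ) - ζ))
  have h1 : ∀ x : Tor d L, ∑ k : Tor d L,
      (1 / ((en k : ℂ) - ζ) - 1 / ((en (k - q) : ℂ) - ζ)) * ch x k =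
      (L : ℂ) ^ d * (Mx ζ x * (1 - ch q x)) := by
    intro x
    have e1 : ∑ k : Tor d L, 1 / ((en k : ℂ) - ζ) * ch x k = (L : ℂ) ^ d * Mx ζ x := by
      unfold Mx
      rw [← mul_assoc, mul_one_div_cancel hLc, one_mul]
      refine Finset.sum_congr rfl fun k _ => ?_
      rw [ch_comm]
      ring
    have e2 : ∑ k : Tor d L, 1 / ((en (k - q) : ℂ) - ζ) * ch x k =
        (L : ℂ) ^ d * (Mx ζ x * ch q x) := by
      rw [← Equiv.sum_comp (Equiv.addRight q)]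
      have e3 : ∀ k : Tor d L, 1 / ((en ((Equiv.addRight q) k - q) : ℂ) - ζ) *
          ch x ((Equiv.addRight q) k) = ch q x * (1 / ((en k : ℂ) - ζ) * ch x k) := by
        intro k
        simp only [Equiv.coe_addRight, add_sub_cancel_right]
        rw [ch_add_right, ch_comm x q]
        ring
      simp only [e3]
      rw [← Finset.mul_sum, e1]
      ring
    simp only [sub_mul, Finset.sum_sub_distrib]
    rw [e1, e2]
    ring
  simp only [h1] at h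
  have h2 : ∀ x : Tor d L, ‖(L : ℂ) ^ d * (Mx ζ x * (1 - ch q x))‖ ^ 2 =
      (L : ℝ) ^ d * ((L : ℝ) ^ d * (‖Mx ζ x‖ ^ 2 * ‖1 - ch q x‖ ^ 2)) := by
    intro x
    rw [norm_mul, norm_mul, norm_pow, Complex.norm_natCast]
    ring
  simp only [h2] at h
  rw [← Finset.mul_sum, ← Finset.mul_sum] at h
  have h3 := mul_left_cancel₀ hL h
  rw [← h3]
  field_simp

lemma ch1_sub_one (a : ZMod L) : ‖1 - ch1 a‖ ^ 2 = 2 - 2 * Real.cos (ang a) := by
  rw [ch1_eq, Complex.sq_norm, Complex.normSq_apply]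
  have h := Real.sin_sq_add_cos_sq (ang a)
  simp [Complex.cos_ofReal_re, Complex.sin_ofReal_re]
  nlinarith

lemma norm_one_sub_pow (z : ℂ) (hz : ‖z‖ = 1) (n : ℕ) : ‖1 - z ^ n‖ ≤ n * ‖1 - z‖ := by
  induction n with
  | zero => simp
  | succ n ih =>
    have e : 1 - z ^ (n + 1) = (1 - z ^ n) + z ^ n * (1 - z) := by ring
    rw [e]
    refine (norm_add_le _ _).trans ?_
    rw [norm_mul, norm_pow, hz, one_pow, one_mul]
    push_cast
    linarith

/-- `|1 - ch1(n a)| ≤ |n| |1 - ch1 a|` for integers `n` -/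
lemma norm_one_sub_ch1_int (a : ZMod L) (n : ℤ) :
    ‖1 - ch1 ((n : ZMod L) * a)‖ ≤ |(n : ℝ)| * ‖1 - ch1 a‖ := by
  have hnat : ∀ m : ℕ, ‖1 - ch1 (((m : ℤ) : ZMod L) * a)‖ ≤ (m : ℝ) * ‖1 - ch1 a‖ := by
    intro m
    have e : (((m : ℤ) : ZMod L) * a) = m • a := by
      rw [nsmul_eq_mul]
      push_cast
      rfl
    rw [e, gap_ch1_nsmul]
    exact norm_one_sub_pow _ (ch1_norm a) m
  rcases Int.eq_nat_or_neg n with ⟨m, hm | hm⟩
  · subst hm
    have := hnat m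
    simpa using this
  · subst hm
    have h1 : ((((-(m : ℤ)) : ℤ) : ZMod L) * a) = -((((m : ℤ) : ZMod L)) * a) := by
      push_cast
      ring
    rw [h1, ch1_neg]
    have h2 : 1 - star (ch1 ((((m : ℤ) : ZMod L)) * a)) =
        star (1 - ch1 ((((m : ℤ) : ZMod L)) * a)) := by
      simp
    rw [h2, norm_star]
    have := hnat m
    simpa using this

lemma prod_one_sub {ι : Type*} (s : Finset ι) (f : ι → ℂ) (hf : ∀ i ∈ s, ‖f i‖ = 1) :
    ‖1 - ∏ i ∈ s, f i‖ ≤ ∑ i ∈ s, ‖1 - f i‖ := by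
  classical
  induction s using Finset.induction_on with
  | empty => simp
  | insert a s ha ih =>
    rw [Finset.prod_insert ha, Finset.sum_insert ha]
    have e : 1 - f a * ∏ i ∈ s, f i = (1 - f a) + f a * (1 - ∏ i ∈ s, f i) := by ring
    rw [e]
    refine (norm_add_le _ _).trans ?_
    rw [norm_mul, hf a (Finset.mem_insert_self _ _), one_mul]
    have := ih fun i hi => hf i (Finset.mem_insert_of_mem hi)
    linarith

/-- squared euclidean length on the torus -/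
def sl (x : Tor d L) : ℝ := ∑ j, ((x j).valMinAbs : ℝ) ^ 2

lemma one_sub_ch_le (q x : Tor d L) : ‖1 - ch q x‖ ^ 2 ≤ sl x * en q := by
  have h1 : ‖1 - ch q x‖ ≤ ∑ j, |((x j).valMinAbs : ℝ)| * ‖1 - ch1 (q j)‖ := by
    unfold ch
    refine (prod_one_sub _ _ fun j _ => ch1_norm _).trans ?_
    refine Finset.sum_le_sum fun j _ => ?_
    have h := norm_one_sub_ch1_int (q j) (x j).valMinAbs
    rw [ZMod.coe_valMinAbs, mul_comm (x j)] at h
    exact h
  have h2 : (∑ j, |((x j).valMinAbs : ℝ)| * ‖1 - ch1 (q j)‖) ^ 2 ≤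
      (∑ j, |((x j).valMinAbs : ℝ)| ^ 2) * ∑ j, ‖1 - ch1 (q j)‖ ^ 2 :=
    Finset.sum_mul_sq_le_sq_mul_sq _ _ _
  have h3 : ∑ j, ‖1 - ch1 (q j)‖ ^ 2 = en q := by
    unfold en
    exact Finset.sum_congr rfl fun j _ => ch1_sub_one _
  have h4 : ∑ j, |((x j).valMinAbs : ℝ)| ^ 2 = sl x := by
    unfold sl
    exact Finset.sum_congr rfl fun j _ => sq_abs _
  rw [h3, h4] at h2
  exact (pow_le_pow_left₀ (norm_nonneg _) h1 2).trans h2

/-- `4 |x_j| / L ≤ |1 - exp(2π i x_j/L)|` -/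
lemma valMinAbs_le (a : ZMod L) :
    4 * |(a.valMinAbs : ℝ)| / L ≤ ‖1 - ch1 a‖ := by
  have hL : 0 < (L : ℝ) := Nat.cast_pos.2 (NeZero.pos L)
  set n : ℤ := a.valMinAbs with hn
  set t : ℝ := Real.pi * n / L with ht
  -- `ch1 a = exp(2 i t)`
  have hpi := Real.pi_pos
  have h1 : Real.cos (ang a) = Real.cos (2 * t) := by
    have hz : ((n : ℤ) : ZMod L) = ((a.val : ℤ) : ZMod L) := by
      rw [hn, ZMod.coe_valMinAbs]
      simp
    obtain ⟨m, hm⟩ := (ZMod.intCast_eq_intCast_iff_dvd_sub _ _ _).1 hz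
    have hm' : (a.val : ℝ) - n = (L : ℝ) * m := by exact_mod_cast hm
    have e : ang a = 2 * t + m * (2 * Real.pi) := by
      unfold ang
      rw [ht]
      have : (a.val : ℝ) = n + L * m := by linarith
      rw [this]
      field_simp
    rw [e, Real.cos_add_int_mul_two_pi]
  have h2 : ‖1 - ch1 a‖ ^ 2 = (2 * Real.sin t) ^ 2 := by
    rw [ch1_sub_one, h1, Real.cos_two_mul]
    have := Real.sin_sq_add_cos_sq t
    nlinarith
  have h3 : ‖1 - ch1 a‖ = |2 * Real.sin t| := by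
    rw [← abs_of_nonneg (norm_nonneg (1 - ch1 a))]
    exact (sq_eq_sq_iff_abs_eq_abs _ _).1 h2
  have h5 : |(n : ℝ)| ≤ L / 2 := by
    have h6 := ZMod.natAbs_valMinAbs_le a
    rw [← hn] at h6
    have h7 : (n.natAbs : ℝ) ≤ ((L / 2 : ℕ) : ℝ) := by exact_mod_cast h6
    have h8 : (((L / 2 : ℕ) : ℝ)) ≤ (L : ℝ) / 2 := Nat.cast_div_le
    have h9 : |(n : ℝ)| = (n.natAbs : ℝ) := by
      rw [Nat.cast_natAbs, Int.cast_abs]
    rw [h9]
    linarith
  have h6 : |t| ≤ Real.pi / 2 := by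
    rw [ht, abs_div, abs_mul, abs_of_pos hpi, abs_of_pos hL, div_le_iff₀ hL]
    nlinarith
  have h7 : 2 / Real.pi * |t| ≤ |Real.sin t| := by
    exact Real.mul_abs_le_abs_sin h6
  rw [h3, abs_mul, abs_of_pos (by norm_num : (0 : ℝ) < 2)]
  have h8 : 2 * (2 / Real.pi * |t|) = 4 * |(n : ℝ)| / L := by
    rw [ht, abs_div, abs_mul, abs_of_pos hpi, abs_of_pos hL]
    field_simp
    ring
  linarith

lemma en_shift (k : Tor d L) (j : Fin d) :
    |en k - en (k - Pi.single j 1)| ≤ 4 * Real.pi / L := by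
  have hL : 0 < (L : ℝ) := Nat.cast_pos.2 (NeZero.pos L)
  have h1 : en k - en (k - Pi.single j 1) =
      2 * Real.cos (ang (k j - 1)) - 2 * Real.cos (ang (k j)) := by
    unfold en
    rw [← Finset.sum_sub_distrib]
    rw [Finset.sum_eq_single j]
    · rw [Pi.sub_apply, Pi.single_eq_same]
      ring
    · intro i _ hi
      rw [Pi.sub_apply, Pi.single_eq_of_ne hi, sub_zero]
      ring
    · intro h
      exact absurd (Finset.mem_univ j) h
  rw [h1]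
  have hre : ∀ b : ZMod L, Real.cos (ang b) = (ch1 b).re := by
    intro b
    rw [ch1, Complex.exp_ofReal_mul_I_re]
  have h2 : 2 * Real.cos (ang (k j - 1)) - 2 * Real.cos (ang (k j)) =
      2 * (ch1 (k j) * (star (ch1 (1 : ZMod L)) - 1)).re := by
    rw [hre, hre, sub_eq_add_neg (k j), ch1_add, ch1_neg, mul_sub, Complex.sub_re, mul_one]
    ring
  rw [h2, abs_mul, abs_of_pos (by norm_num : (0 : ℝ) < 2)]
  have h3 : |(ch1 (k j) * (star (ch1 (1 : ZMod L)) - 1)).re| ≤ ‖1 - ch1 (1 : ZMod L)‖ := by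
    refine (Complex.abs_re_le_norm _).trans ?_
    rw [norm_mul, ch1_norm, one_mul, ← norm_neg, neg_sub]
    have : (1 : ℂ) - star (ch1 (1 : ZMod L)) = star (1 - ch1 (1 : ZMod L)) := by simp
    rw [this, norm_star]
  have h4 : ‖1 - ch1 (1 : ZMod L)‖ ≤ 2 * Real.pi / L := by
    have h5 : ‖1 - ch1 (1 : ZMod L)‖ ≤ |ang (1 : ZMod L)| := by
      have h6 : ‖1 - ch1 (1 : ZMod L)‖ ^ 2 ≤ ang (1 : ZMod L) ^ 2 := by
        rw [ch1_sub_one]
        have := Real.one_sub_sq_div_two_le_cos (x := ang (1 : ZMod L))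
        nlinarith
      have h7 := sq_le_sq.1 h6
      rwa [abs_of_nonneg (norm_nonneg _)] at h7
    refine h5.trans ?_
    unfold ang
    rw [abs_of_nonneg (by positivity)]
    apply div_le_div_of_nonneg_right _ hL.le
    have h7 : ((1 : ZMod L).val : ℝ) ≤ 1 := by
      have : (1 : ZMod L).val ≤ 1 := by
        rcases Nat.lt_or_ge 1 L with h | h
        · have : Fact (1 < L) := ⟨h⟩
          rw [ZMod.val_one]
        · have hlt := ZMod.val_lt (1 : ZMod L)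
          omega
      exact_mod_cast this
    have := Real.pi_pos
    nlinarith
  have h5 : 2 * (2 * Real.pi / L) = 4 * Real.pi / L := by ring
  linarith

/-- second moment of `|M|²`: valid on every torus -/
theorem M_moment (ζ : ℂ) (hζ : 0 < ζ.im) :
    ∑ x : Tor d L, ‖Mx ζ x‖ ^ 2 * sl x ≤
      d * Real.pi ^ 2 * (Mx ζ (0 : Tor d L)).im / ζ.im ^ 3 := by
  have hL : 0 < (L : ℝ) := Nat.cast_pos.2 (NeZero.pos L)
  have hN : 0 < (L : ℝ) ^ d := pow_pos hL _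
  -- one coordinate
  have hj : ∀ j : Fin d, ∑ x : Tor d L, ‖Mx ζ x‖ ^ 2 * ((x j).valMinAbs : ℝ) ^ 2 ≤
      Real.pi ^ 2 * (Mx ζ (0 : Tor d L)).im / ζ.im ^ 3 := by
    intro j
    have h1 : ∀ x : Tor d L, ‖Mx ζ x‖ ^ 2 * ((x j).valMinAbs : ℝ) ^ 2 ≤
        ((L : ℝ) ^ 2 / 16) * (‖Mx ζ x‖ ^ 2 * ‖1 - ch (Pi.single j 1) x‖ ^ 2) := by
      intro x
      have e1 : ch (Pi.single j 1) x = ch1 (x j) := by
        rw [ch_comm, hdiag_ch_single]
      have e2 := valMinAbs_le (x j)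
      rw [e1]
      have e3 : (4 * |((x j).valMinAbs : ℝ)| / L) ^ 2 ≤ ‖1 - ch1 (x j)‖ ^ 2 :=
        pow_le_pow_left₀ (by positivity) e2 2
      have e4 : (4 * |((x j).valMinAbs : ℝ)| / L) ^ 2 =
          16 / (L : ℝ) ^ 2 * ((x j).valMinAbs : ℝ) ^ 2 := by
        rw [div_pow, mul_pow, sq_abs]
        ring
      rw [e4] at e3
      have e5 : ((x j).valMinAbs : ℝ) ^ 2 ≤ (L : ℝ) ^ 2 / 16 * ‖1 - ch1 (x j)‖ ^ 2 := by
        calc ((x j).valMinAbs : ℝ) ^ 2 =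
            (L : ℝ) ^ 2 / 16 * (16 / (L : ℝ) ^ 2 * ((x j).valMinAbs : ℝ) ^ 2) := by
              field_simp
          _ ≤ _ := mul_le_mul_of_nonneg_left e3 (by positivity)
      calc ‖Mx ζ x‖ ^ 2 * ((x j).valMinAbs : ℝ) ^ 2 ≤
          ‖Mx ζ x‖ ^ 2 * ((L : ℝ) ^ 2 / 16 * ‖1 - ch1 (x j)‖ ^ 2) :=
            mul_le_mul_of_nonneg_left e5 (by positivity)
        _ = _ := by ring
    refine (Finset.sum_le_sum fun x _ => h1 x).trans ?_
    rw [← Finset.mul_sum, sum_M_ch]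
    have h2 : ∀ k : Tor d L,
        ‖1 / ((en k : ℂ) - ζ) - 1 / ((en (k - Pi.single j 1) : ℂ) - ζ)‖ ^ 2 ≤
        (4 * Real.pi / L) ^ 2 * (1 / ζ.im ^ 2) * (1 / ‖(en k : ℂ) - ζ‖ ^ 2) := by
      intro k
      have n1 := hdiag_ne ζ hζ k
      have n2 := hdiag_ne ζ hζ (k - Pi.single j 1)
      have e1 : 1 / ((en k : ℂ) - ζ) - 1 / ((en (k - Pi.single j 1) : ℂ) - ζ) =
          -(((en k - en (k - Pi.single j 1) : ℝ) : ℂ)) *
            (1 / ((en (k - Pi.single j 1) : ℂ) - ζ)) * (1 / ((en k : ℂ) - ζ)) := by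
        field_simp
        push_cast
        ring
      have e2 : ‖1 / ((en (k - Pi.single j 1) : ℂ) - ζ)‖ ≤ 1 / ζ.im := by
        rw [norm_div, norm_one]
        apply div_le_div_of_nonneg_left zero_le_one hζ
        have := Complex.abs_im_le_norm ((en (k - Pi.single j 1) : ℂ) - ζ)
        simp only [Complex.sub_im, Complex.ofReal_im, zero_sub, abs_neg] at this
        rwa [abs_of_pos hζ] at this
      have e3 := en_shift k j
      rw [e1, norm_mul, norm_mul, norm_neg, Complex.norm_real, Real.norm_eq_abs, mul_pow, mul_pow]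
      have e4 : |en k - en (k - Pi.single j 1)| ^ 2 ≤ (4 * Real.pi / L) ^ 2 :=
        pow_le_pow_left₀ (abs_nonneg _) e3 2
      have e5 : ‖1 / ((en (k - Pi.single j 1) : ℂ) - ζ)‖ ^ 2 ≤ 1 / ζ.im ^ 2 := by
        calc ‖1 / ((en (k - Pi.single j 1) : ℂ) - ζ)‖ ^ 2 ≤ (1 / ζ.im) ^ 2 :=
              pow_le_pow_left₀ (norm_nonneg _) e2 2
          _ = _ := by rw [_root_.one_div_pow]
      have e6 : ‖1 / ((en k : ℂ) - ζ)‖ ^ 2 = 1 / ‖(en k : ℂ) - ζ‖ ^ 2 := by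
        rw [norm_div, norm_one, _root_.one_div_pow]
      rw [e6]
      apply mul_le_mul_of_nonneg_right _ (by positivity)
      exact mul_le_mul e4 e5 (by positivity) (by positivity)
    -- the sum of `1/|en - ζ|²`
    have h3 : (1 / (L : ℝ) ^ d) * ∑ k : Tor d L, 1 / ‖(en k : ℂ) - ζ‖ ^ 2 =
        (Mx ζ (0 : Tor d L)).im / ζ.im := by
      rw [← Mx_ward ζ hζ]
      have h4 := parseval (fun k : Tor d L => 1 / ((en k : ℂ) - ζ))
      have hLc : (L : ℂ) ^ d ≠ 0 := pow_ne_zero _ (Nat.cast_ne_zero.2 (NeZero.ne L))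
      have e1 : ∀ x : Tor d L, ∑ k : Tor d L, 1 / ((en k : ℂ) - ζ) * ch x k =
          (L : ℂ) ^ d * Mx ζ x := by
        intro x
        unfold Mx
        rw [← mul_assoc, mul_one_div_cancel hLc, one_mul]
        refine Finset.sum_congr rfl fun k _ => ?_
        rw [ch_comm]
        ring
      simp only [e1] at h4
      have e2 : ∀ x : Tor d L, ‖(L : ℂ) ^ d * Mx ζ x‖ ^ 2 =
          (L : ℝ) ^ d * ((L : ℝ) ^ d * ‖Mx ζ x‖ ^ 2) := by
        intro x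
        rw [norm_mul, norm_pow, Complex.norm_natCast]
        ring
      simp only [e2] at h4
      rw [← Finset.mul_sum, ← Finset.mul_sum] at h4
      have h5 := mul_left_cancel₀ hN.ne' h4
      have h6 : ∀ k : Tor d L, ‖1 / ((en k : ℂ) - ζ)‖ ^ 2 = 1 / ‖(en k : ℂ) - ζ‖ ^ 2 := by
        intro k
        rw [norm_div, norm_one, _root_.one_div_pow]
      simp only [h6] at h5
      rw [← h5]
      field_simp
    have h7 : (1 / (L : ℝ) ^ d) * ∑ k : Tor d L,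
        ‖1 / ((en k : ℂ) - ζ) - 1 / ((en (k - Pi.single j 1) : ℂ) - ζ)‖ ^ 2 ≤
        (4 * Real.pi / L) ^ 2 * (1 / ζ.im ^ 2) * ((Mx ζ (0 : Tor d L)).im / ζ.im) := by
      rw [← h3]
      calc (1 / (L : ℝ) ^ d) * ∑ k : Tor d L,
          ‖1 / ((en k : ℂ) - ζ) - 1 / ((en (k - Pi.single j 1) : ℂ) - ζ)‖ ^ 2 ≤
          (1 / (L : ℝ) ^ d) * ∑ k : Tor d L,
            (4 * Real.pi / L) ^ 2 * (1 / ζ.im ^ 2) * (1 / ‖(en k : ℂ) - ζ‖ ^ 2) := by
            apply mul_le_mul_of_nonneg_left _ (by positivity)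
            exact Finset.sum_le_sum fun k _ => h2 k
        _ = _ := by rw [← Finset.mul_sum]; ring
    calc (L : ℝ) ^ 2 / 16 * ((1 / (L : ℝ) ^ d) * ∑ k : Tor d L,
        ‖1 / ((en k : ℂ) - ζ) - 1 / ((en (k - Pi.single j 1) : ℂ) - ζ)‖ ^ 2) ≤
        (L : ℝ) ^ 2 / 16 * ((4 * Real.pi / L) ^ 2 * (1 / ζ.im ^ 2) *
          ((Mx ζ (0 : Tor d L)).im / ζ.im)) :=
          mul_le_mul_of_nonneg_left h7 (by positivity)
      _ = Real.pi ^ 2 * (Mx ζ (0 : Tor d L)).im / ζ.im ^ 3 := by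
          field_simp
          ring
  have hs : ∑ x : Tor d L, ‖Mx ζ x‖ ^ 2 * sl x =
      ∑ j : Fin d, ∑ x : Tor d L, ‖Mx ζ x‖ ^ 2 * ((x j).valMinAbs : ℝ) ^ 2 := by
    rw [Finset.sum_comm]
    refine Finset.sum_congr rfl fun x _ => ?_
    unfold sl
    rw [Finset.mul_sum]
  rw [hs]
  calc ∑ j : Fin d, ∑ x : Tor d L, ‖Mx ζ x‖ ^ 2 * ((x j).valMinAbs : ℝ) ^ 2 ≤
      ∑ _j : Fin d, Real.pi ^ 2 * (Mx ζ (0 : Tor d L)).im / ζ.im ^ 3 :=
        Finset.sum_le_sum fun j _ => hj j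
    _ = _ := by
        rw [Finset.sum_const, Finset.card_univ, Fintype.card_fin, nsmul_eq_mul]
        ring

lemma ST_diff_le (ζ : ℂ) (hζ : 0 < ζ.im) (q : Tor d L) :
    ST ζ (0 : Tor d L) - ST ζ q ≤
      d * Real.pi ^ 2 / 2 * (Mx ζ (0 : Tor d L)).im / ζ.im ^ 3 * en q := by
  rw [ST_diff]
  have h1 : ∀ x : Tor d L, ‖Mx ζ x‖ ^ 2 * (1 - (ch q x).re) ≤
      (1 / 2) * en q * (‖Mx ζ x‖ ^ 2 * sl x) := by
    intro x
    have e1 := one_sub_ch_le q x
    rw [sub_ch] at e1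
    have e2 : 1 - (ch q x).re ≤ (1 / 2) * (sl x * en q) := by linarith
    calc ‖Mx ζ x‖ ^ 2 * (1 - (ch q x).re) ≤ ‖Mx ζ x‖ ^ 2 * ((1 / 2) * (sl x * en q)) :=
          mul_le_mul_of_nonneg_left e2 (by positivity)
      _ = _ := by ring
  refine (Finset.sum_le_sum fun x _ => h1 x).trans ?_
  rw [← Finset.mul_sum]
  calc (1 / 2) * en q * ∑ x : Tor d L, ‖Mx ζ x‖ ^ 2 * sl x ≤
      (1 / 2) * en q * (d * Real.pi ^ 2 * (Mx ζ (0 : Tor d L)).im / ζ.im ^ 3) :=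
        mul_le_mul_of_nonneg_left (M_moment ζ hζ) (by
          have := en_nonneg q
          positivity)
    _ = _ := by ring

/-- (H4up) for the free medium -/
theorem form_up (ζ : ℂ) (hζ : 0 < ζ.im) (a : Tor d L → ℝ) :
    QT ζ ζ.im a ≤ (d * Real.pi ^ 2 / 2 * (Mx ζ (0 : Tor d L)).im / ζ.im) * DT a := by
  rw [QT_eq, DT_eq]
  have hL : 0 < (L : ℝ) := Nat.cast_pos.2 (NeZero.pos L)
  have hN : 0 < (L : ℝ) ^ d := pow_pos hL _
  have h : ∀ q : Tor d L, ζ.im ^ 2 * (ST ζ (0 : Tor d L) - ST ζ q) * ‖FT a q‖ ^ 2 ≤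
      (d * Real.pi ^ 2 / 2 * (Mx ζ (0 : Tor d L)).im / ζ.im) * (en q * ‖FT a q‖ ^ 2) := by
    intro q
    have h1 := ST_diff_le ζ hζ q
    calc ζ.im ^ 2 * (ST ζ (0 : Tor d L) - ST ζ q) * ‖FT a q‖ ^ 2 ≤
        ζ.im ^ 2 * (d * Real.pi ^ 2 / 2 * (Mx ζ (0 : Tor d L)).im / ζ.im ^ 3 * en q) *
          ‖FT a q‖ ^ 2 := by
          apply mul_le_mul_of_nonneg_right _ (by positivity)
          exact mul_le_mul_of_nonneg_left h1 (by positivity)
      _ = _ := by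
          field_simp
  calc 1 / (L : ℝ) ^ d * ∑ q, ζ.im ^ 2 * (ST ζ (0 : Tor d L) - ST ζ q) * ‖FT a q‖ ^ 2 ≤
      1 / (L : ℝ) ^ d * ∑ q, (d * Real.pi ^ 2 / 2 * (Mx ζ (0 : Tor d L)).im / ζ.im) *
        (en q * ‖FT a q‖ ^ 2) := by
        apply mul_le_mul_of_nonneg_left _ (by positivity)
        exact Finset.sum_le_sum fun q _ => h q
    _ = _ := by
        rw [← Finset.mul_sum]
        ring

end Pool.Agent.ANT
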