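import Pool.Agent.ANT.Norm
import Pool.Agent.Kin.MDiag

/-!
# ANT / SumSq: `|∑ M_y²| ≤ C/√γ`

`∑_y Mx ζ y ^ 2 = (1/L^d) ∑_k 1/(en k - ζ)²` (Parseval with `Mx ζ (-y) = Mx ζ y`; character
orthogonality as in `Kin/SHat.lean`, `Kin/Char.lean`) is the derivative of
`ζ ↦ Mx ζ 0 = (1/L^d) ∑_k 1/(en k - ζ)`. By `Kin.mdiag` with `γ/2`: for `‖ζ' - ζ‖ ≤ γ/2`,
`‖Mx ζ 0 - Mx ζ' 0‖ ≤ C ‖ζ - ζ'‖/√(γ/2)`, so the derivative is at most `√2 C/√γ`
(`HasDerivAt.le_of_lip'` or a direct limit).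
-/

open Matrix Finset

noncomputable section

namespace Pool.Agent.ANT

open Pool.Agent.Kin

variable {d L : ℕ}

theorem mx_neg [NeZero L] (ζ : ℂ) (x : Tor d L) : Mx ζ (-x) = Mx ζ x := by
  unfold Mx
  congr 1
  rw [← Equiv.sum_comp (Equiv.neg (Tor d L))]
  refine Finset.sum_congr rfl fun k _ => ?_
  rw [Equiv.neg_apply, ch_neg_left, ch_neg_right, star_star, en_neg]

private lemma sumsq_L [NeZero L] : ((L : ℂ)) ≠ 0 := by exact_mod_cast NeZero.ne L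

private lemma sumsq_ne (ζ : ℂ) (hζ : 0 < ζ.im) (r : ℝ) : (r : ℂ) - ζ ≠ 0 := by
  intro h
  have := congrArg Complex.im h
  simp at this
  linarith

theorem sum_sq_eq [NeZero L] (ζ : ℂ) (h0 : 0 < ζ.im) :
    ∑ x : Tor d L, Mx ζ x ^ 2 = (1 / (L : ℂ) ^ d) * ∑ k : Tor d L, 1 / ((en k : ℂ) - ζ) ^ 2 := by
  have h1 : ∀ x : Tor d L, Mx ζ x ^ 2 =
      (1 / (L : ℂ) ^ d) ^ 2 * ∑ k : Tor d L, ∑ l : Tor d L,
        (1 / (((en k : ℂ) - ζ) * ((en l : ℂ) - ζ))) * ch (k - l) x := by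
    intro x
    have h2 : Mx ζ x ^ 2 = Mx ζ x * Mx ζ (-x) := by rw [mx_neg, sq]
    rw [h2]
    unfold Mx
    rw [show (1 / (L : ℂ) ^ d * ∑ k : Tor d L, ch k x / ((en k : ℂ) - ζ)) *
      (1 / (L : ℂ) ^ d * ∑ l : Tor d L, ch l (-x) / ((en l : ℂ) - ζ)) =
      (1 / (L : ℂ) ^ d) ^ 2 * ((∑ k : Tor d L, ch k x / ((en k : ℂ) - ζ)) *
      ∑ l : Tor d L, ch l (-x) / ((en l : ℂ) - ζ)) by ring]
    congr 1
    rw [Finset.sum_mul_sum]
    refine Finset.sum_congr rfl fun k _ => ?_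
    refine Finset.sum_congr rfl fun l _ => ?_
    rw [show k - l = k + -l by rw [sub_eq_add_neg], ch_add_left, ch_neg_right, ch_neg_left,
      div_mul_div_comm]
    ring
  simp only [h1]
  rw [← Finset.mul_sum, Finset.sum_comm]
  have h3 : ∀ k : Tor d L, ∑ x : Tor d L, ∑ l : Tor d L,
      (1 / (((en k : ℂ) - ζ) * ((en l : ℂ) - ζ))) * ch (k - l) x =
      (1 / ((en k : ℂ) - ζ) ^ 2) * (L : ℂ) ^ d := by
    intro k
    rw [Finset.sum_comm]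
    simp only [← Finset.mul_sum]
    have h4 : ∀ l : Tor d L, ∑ x : Tor d L, ch (k - l) x =
        if l = k then (L : ℂ) ^ d else 0 := by
      intro l
      simp only [ch_comm (k - l)]
      have : ∑ x : Tor d L, ch x (k - l) = _ := sum_ch (k - l)
      rw [this]
      by_cases h : l = k
      · rw [if_pos h, if_pos (by rw [h]; abel)]
      · rw [if_neg h, if_neg]
        intro h5
        exact h (sub_eq_zero.1 h5).symm
    simp only [h4, mul_ite, mul_zero, Finset.sum_ite_eq', Finset.mem_univ, if_true]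
    rw [sq]
  simp only [h3]
  rw [← Finset.sum_mul]
  have hL : (L : ℂ) ^ d ≠ 0 := pow_ne_zero _ sumsq_L
  field_simp

private lemma sumsq_deriv [NeZero L] (ζ : ℂ) (h0 : 0 < ζ.im) :
    HasDerivAt (fun w : ℂ => Mx w (0 : Tor d L)) (∑ x : Tor d L, Mx ζ x ^ 2) ζ := by
  rw [sum_sq_eq ζ h0]
  have h1 : (fun w : ℂ => Mx w (0 : Tor d L)) =
      fun w : ℂ => (1 / (L : ℂ) ^ d) * ∑ k : Tor d L, ((en k : ℂ) - w)⁻¹ := by
    funext w
    unfold Mx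
    congr 1
    refine Finset.sum_congr rfl fun k _ => ?_
    rw [ch_comm, ch_zero_left, one_div]
  rw [h1]
  refine HasDerivAt.const_mul _ ?_
  refine HasDerivAt.fun_sum fun k _ => ?_
  have h2 : HasDerivAt (fun w : ℂ => (en k : ℂ) - w) (-1) ζ := by
    simpa using (hasDerivAt_id ζ).const_sub (en k : ℂ)
  have h3 := h2.inv (sumsq_ne ζ h0 (en k))
  have h4 : - -1 / ((en k : ℂ) - ζ) ^ 2 = 1 / ((en k : ℂ) - ζ) ^ 2 := by norm_num
  rw [h4] at h3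
  exact h3

theorem sum_sq (d : ℕ) (hd : 3 ≤ d) : ∃ C : ℝ, 0 < C ∧ ∀ (L : ℕ) [NeZero L] (ζ : ℂ),
    0 < ζ.im → ζ.im ≤ 1 → 64 / ζ.im ^ 3 ≤ L →
    ‖∑ x : Tor d L, Mx ζ x ^ 2‖ ≤ C / √ζ.im := by
  obtain ⟨C, hC, hkey⟩ := mdiag d hd
  refine ⟨2 * C, by positivity, ?_⟩
  intro L _ ζ h0 h1 hL
  have hL' : 8 / (ζ.im / 2) ^ 3 ≤ (L : ℝ) := by
    refine le_trans (le_of_eq ?_) hL
    field_simp
    norm_num
  have hlip : ∀ᶠ w in nhds ζ, ‖Mx w (0 : Tor d L) - Mx ζ (0 : Tor d L)‖ ≤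
      (C / √(ζ.im / 2)) * ‖w - ζ‖ := by
    have hop : ∀ᶠ w in nhds ζ, ζ.im / 2 < w.im :=
      (isOpen_lt continuous_const Complex.continuous_im).mem_nhds (show ζ.im / 2 < ζ.im by linarith)
    filter_upwards [hop] with w hw
    have h2 := (hkey L (ζ.im / 2) (by linarith) (by linarith) hL' w ζ hw.le (by linarith)).2
    refine h2.trans (le_of_eq ?_)
    ring
  have h3 : ‖∑ x : Tor d L, Mx ζ x ^ 2‖ ≤ C / √(ζ.im / 2) :=
    (sumsq_deriv (d := d) (L := L) ζ h0).le_of_lip' (by positivity) hlip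
  refine h3.trans ?_
  have h4 : √ζ.im / 2 ≤ √(ζ.im / 2) := by
    have h5 : √ζ.im / 2 = √(ζ.im / 4) := by
      rw [Real.sqrt_div h0.le, show (4 : ℝ) = 2 ^ 2 by norm_num, Real.sqrt_sq (by norm_num)]
    rw [h5]
    exact Real.sqrt_le_sqrt (by linarith)
  have h6 : 0 < √ζ.im := Real.sqrt_pos.mpr h0
  rw [div_le_div_iff₀ (by linarith) h6]
  nlinarith

end Pool.Agent.ANT
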