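import Pool.Agent.ANT.Defs
import Pool.Agent.ANT.CTh
import Pool.Agent.ANT.SumSq
import Pool.Agent.ANT.FormLow
import Pool.Agent.ANT.FormUp
import Pool.Agent.APS.FixPt
import Pool.Agent.APS.Init0

/-!
# ANT / StartM: the start theorem

`APS.world_exists` with `sg = 1`, `lam = √s` (so `D.s = s`): `g0` and `World`; `ST_zero` (Ward), `a_four` (t4),
`sum_sq`, `ct_l2M`, `ct_ptM`, `ct_momM`, `form_low`, `form_up`.
-/

open Matrix Finset

noncomputable section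

namespace Pool.Agent.ANT

open Pool.Agent.Kin

theorem start (d : ℕ) (hd : 3 ≤ d) (δ e : ℝ) (hδ : 0 < δ) (he : 0 < e) (he1 : e < 1) :
    ∃ c1 C1 C : ℝ, 0 < c1 ∧ 1 ≤ C1 ∧ 1 ≤ C ∧ ∀ γ0 : ℝ, 0 < γ0 → ∃ s0 : ℝ, 0 < s0 ∧ s0 ≤ 1 ∧
    ∀ (L : ℕ) [NeZero L] (E η s : ℝ), 0 < s → s ≤ s0 → δ ≤ E → E ≤ 4 * d - δ →
      0 < η → η ≤ c1 * s → s ^ (-5 : ℝ) ≤ L → 1 / η ≤ L →
      ∃ (g0 ζ : ℂ), Start d L E η s g0 e c1 C1 C ζ ∧ ζ.im ≤ γ0 ∧ 64 / ζ.im ^ 3 ≤ L := by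
  obtain ⟨rlo, rhi, hrlo, hrhi, hw⟩ := APS.world_exists d hd δ 1 hδ one_pos
  obtain ⟨C4, hC4, h4⟩ := a_four d hd
  obtain ⟨C2, hC2, h2⟩ := sum_sq d hd
  obtain ⟨C5, γ5, hC5, hγ5, h5⟩ := form_low d hd e rlo he he1 hrlo
  obtain ⟨CC, hCC⟩ : ∃ CC : ℝ, CC = C4 + C2 + 64 * d ^ 2 * rhi + 2 * rhi + 5 * d * rhi + C5 + 1 :=
    ⟨_, rfl⟩
  have p1 : 0 ≤ 64 * (d : ℝ) ^ 2 * rhi := by positivity
  have p2 : 0 ≤ 5 * (d : ℝ) * rhi := by positivity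
  have q1 : 1 ≤ CC := by linarith
  have q4 : C4 ≤ CC := by linarith
  have q2 : C2 ≤ CC := by linarith
  have q3 : 64 * (d : ℝ) ^ 2 * rhi ≤ CC := by linarith
  have q5 : 2 * rhi ≤ CC := by linarith
  have q6 : 5 * (d : ℝ) * rhi ≤ CC := by linarith
  have q7 : C5 ≤ CC := by linarith
  refine ⟨rlo, rhi, CC, hrlo, hrhi, q1, ?_⟩
  intro γ0 hγ0
  obtain ⟨lam0, hlam0, H⟩ := hw (min γ0 γ5) (lt_min hγ0 hγ5)
  refine ⟨min 1 (lam0 ^ 2), by positivity, min_le_left _ _, ?_⟩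
  intro L _ E η s hs hs0 hE1 hE2 hη hηs hL hLη
  have hs1 : s ≤ 1 := hs0.trans (min_le_left _ _)
  have hsl : s ≤ lam0 ^ 2 := hs0.trans (min_le_right _ _)
  have hsq : √s ^ 2 = s := Real.sq_sqrt hs.le
  have hl : √s ≤ lam0 := by
    rw [← Real.sqrt_sq hlam0.le]
    exact Real.sqrt_le_sqrt hsl
  obtain ⟨g0, hW, hg, h64⟩ := H L E η (√s) (Real.sqrt_pos.2 hs) hl hE1 hE2 hη
    (by rw [hsq]; linarith) (by
      have : √s ^ (-10 : ℝ) = s ^ (-5 : ℝ) := by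
        rw [Real.sqrt_eq_rpow, ← Real.rpow_mul hs.le]
        norm_num
      rw [this]
      exact hL) hLη
  have hDs : (APS.mkD d L E η (√s) 1 g0).s = s := by
    show √s ^ 2 * 1 = s
    rw [hsq, mul_one]
  obtain ⟨ζ, hζ⟩ : ∃ ζ : ℂ, ζ = (APS.mkD d L E η (√s) 1 g0).zr 0 := ⟨_, rfl⟩
  have hζe : ζ = (E : ℂ) + (η : ℂ) * Complex.I + (s : ℂ) * g0 := by
    rw [hζ]
    show (APS.mkD d L E η (√s) 1 g0).z + (((APS.mkD d L E η (√s) 1 g0).s * (1 - 0 ^ 2) : ℝ) : ℂ) *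
      g0 = _
    rw [hDs]
    have : s * (1 - 0 ^ 2) = s := by ring
    rw [this]
    rfl
  have hfix : g0 = Mx ζ (0 : Tor d L) := by
    rw [hζ]
    exact hW.fix
  have hlo : rlo ≤ g0.im := hW.lo
  have hhi : ‖g0‖ ≤ rhi := hW.hi
  have hgam : ζ.im = η + s * g0.im := by
    rw [hζe]
    simp
  have het : (APS.mkD d L E η (√s) 1 g0).et 0 = ζ.im := by
    rw [hgam]
    unfold APS.Fl.et
    rw [hDs]
    have h1 : (APS.mkD d L E η (√s) 1 g0).z.im = η := by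
      simp [APS.mkD]
    have h2 : (APS.mkD d L E η (√s) 1 g0).g0 = g0 := rfl
    rw [h1, h2]
    ring
  rw [het] at hg h64
  have hζ0 : 0 < ζ.im := by
    rw [hgam]
    have : 0 < g0.im := hrlo.trans_le hlo
    positivity
  have hζ1 : ζ.im ≤ 1 := by
    rw [← het]
    exact hW.et1
  have h8 : 8 / ζ.im ^ 3 ≤ L := by
    have := hW.Lb
    rw [het] at this
    exact this
  have hM0 : ‖Mx ζ (0 : Tor d L)‖ ≤ rhi := by
    rw [← hfix]
    exact hhi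
  have hMi : rlo ≤ (Mx ζ (0 : Tor d L)).im := by
    rw [← hfix]
    exact hlo
  have hMh : g0.im ≤ rhi := (Complex.abs_im_le_norm g0 |> (le_abs_self _).trans).trans hhi
  refine ⟨g0, ζ, ⟨hζe, hfix, hlo, hhi, hgam, hζ0, hζ1, ?_, ?_, ?_, ?_, ?_, ?_, ?_, ?_, ?_⟩,
    hg.trans (min_le_left _ _), h64⟩
  · have h1 := ST_zero (d := d) (L := L) ζ hζ0
    rw [← hfix] at h1
    rw [← h1]
    unfold Kin.ST
    refine Finset.sum_congr rfl fun x _ => ?_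
    have h2 : ch (0 : Tor d L) x = 1 := by
      simp [ch, ch1, ang]
    rw [h2, Complex.one_re, mul_one]
  · exact (h4 L ζ hζ0 hζ1 h8).trans
      (mul_le_mul_of_nonneg_right q4 (Real.rpow_nonneg hζ0.le _))
  · intro x
    have h1 : ‖Mx ζ x‖ ^ 4 ≤ C4 * ζ.im ^ (-(3 / 4) : ℝ) :=
      (Finset.single_le_sum (f := fun x : Tor d L => ‖Mx ζ x‖ ^ 4) (fun _ _ => by positivity)
        (Finset.mem_univ x)).trans (h4 L ζ hζ0 hζ1 h8)
    have h2 : ζ.im ^ (-(3 / 4) : ℝ) = (ζ.im ^ (-(3 / 16) : ℝ)) ^ 4 := by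
      rw [← Real.rpow_natCast, ← Real.rpow_mul hζ0.le]
      norm_num
    have h5 : C4 ≤ CC ^ 4 := q4.trans (le_self_pow₀ q1 (by norm_num))
    have h0 : 0 < ζ.im ^ (-(3 / 16) : ℝ) := Real.rpow_pos_of_pos hζ0 _
    refine le_of_pow_le_pow_left₀ (n := 4) (by norm_num) (by positivity) ?_
    rw [mul_pow, ← h2]
    exact h1.trans (mul_le_mul_of_nonneg_right h5 (Real.rpow_nonneg hζ0.le _))
  · exact (h2 L ζ hζ0 hζ1 h64).trans (div_le_div_of_nonneg_right q2 (Real.sqrt_nonneg _))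
  · refine (ct_l2M (by omega) ζ hζ0 hζ1).trans (div_le_div_of_nonneg_right ?_ hζ0.le)
    linarith
  · intro x
    refine (ct_ptM (by omega) ζ hζ0 hζ1 x).trans ?_
    refine mul_le_mul_of_nonneg_right ?_ (Real.exp_pos _).le
    refine div_le_div_of_nonneg_right ?_ hζ0.le
    linarith
  · refine (ct_momM (by omega) ζ hζ0 hζ1).trans ?_
    refine div_le_div_of_nonneg_right ?_ (by positivity)
    have : 64 * (d : ℝ) ^ 2 * ‖Mx ζ (0 : Tor d L)‖ ≤ 64 * (d : ℝ) ^ 2 * rhi :=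
      mul_le_mul_of_nonneg_left hM0 (by positivity)
    linarith
  · intro u
    obtain ⟨a, ha⟩ := h5 L ζ hζ0 (hg.trans (min_le_right _ _)) h8 hMi u
    refine ⟨a, le_trans ?_ ha⟩
    rw [← hfix]
    have h1 : 0 ≤ DT a := by
      unfold DT
      positivity
    have h2 : 0 < ζ.im ^ (1 - 2 * e) := Real.rpow_pos_of_pos hζ0 _
    have h3 : DT a / (CC * ζ.im ^ (1 - 2 * e)) ≤ DT a / (C5 * ζ.im ^ (1 - 2 * e)) :=
      div_le_div_of_nonneg_left h1 (by positivity) (mul_le_mul_of_nonneg_right q7 h2.le)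
    linarith
  · intro a
    refine (form_up ζ hζ0 a).trans ?_
    have h1 : 0 ≤ DT a := by
      unfold DT
      positivity
    refine mul_le_mul_of_nonneg_right ?_ h1
    refine div_le_div_of_nonneg_right ?_ hζ0.le
    rw [← hfix]
    have hpi : Real.pi ^ 2 ≤ 10 := by
      nlinarith [Real.pi_lt_d2, Real.pi_pos]
    have h2 : (d : ℝ) * Real.pi ^ 2 / 2 * g0.im ≤ 5 * d * rhi := by
      have h3 : 0 ≤ g0.im := hrlo.le.trans hlo
      have h4 : (d : ℝ) * Real.pi ^ 2 / 2 ≤ 5 * d := by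
        have : (0 : ℝ) ≤ d := Nat.cast_nonneg d
        nlinarith
      exact mul_le_mul h4 hMh h3 (by positivity)
    linarith

end Pool.Agent.ANT
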