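import Pool.Agent.ANT.Norm

/-!
# ANT / Abs: powers of nonnegative matrices

(1) `pow_trunc`: by induction `0 ≤ (A^n) x y ≤ (B^n) x y`, `∑_y (B^n) x y = 1`,
`∑_y (A^n) x y ≥ 1 - n τ` (row sums of `A` at most `1`), so the sum over `y` of the nonnegative numbers
`(B^n) x y - (A^n) x y` is at most `n τ`.
(2) `pow_range`: induction with `tn_add`, `tn_neg`.
(3) `telescope`: induction on `n ≥ 1`, `F_n := ∑_{x∈Om'} ∑_y (A^n) x y (u x - u y)²`, claim
`F_n ≤ n² Q2`, `Q2 := ∑_{x∈Om} ∑_{y∈Om} A x y (u x - u y)²`. `(A^(n+1)) x y = ∑_w (A^n) x w A w y` and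
`(u x - u y)² ≤ ((n+1)/n) (u x - u w)² + (n+1) (u w - u y)²`. First term: `∑_y A w y ≤ 1` gives
`((n+1)/n) F_n`. Second: `(n+1) ∑_w (∑_{x∈Om'} (A^n) x w) ∑_y A w y (u w - u y)²`, column sums of `A^n` at
most `1`, and only `w ∈ Om`, `y ∈ Om` occur by `hOm` (with `k = n`, `k = n+1`: if `(A^n) x w ≠ 0` and
`A w y ≠ 0` then `(A^(n+1)) x y ≠ 0` because all terms are nonnegative).
-/

open Matrix Finset

noncomputable section

namespace Pool.Agent.ANT

open Pool.Agent.Kin

variable {ι : Type} [Fintype ι] [DecidableEq ι]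

theorem abs_mpow_nonneg (A : Matrix ι ι ℝ) (hA0 : ∀ x y, 0 ≤ A x y) (n : ℕ) (x y : ι) :
    0 ≤ (A ^ n) x y := by
  induction n generalizing x y with
  | zero =>
    rw [pow_zero, Matrix.one_apply]
    split_ifs
    · exact zero_le_one
    · exact le_rfl
  | succ n ih =>
    rw [pow_succ, Matrix.mul_apply]
    exact Finset.sum_nonneg fun w _ => mul_nonneg (ih x w) (hA0 w y)

theorem abs_mpow_le (A B : Matrix ι ι ℝ) (hA0 : ∀ x y, 0 ≤ A x y) (hAB : ∀ x y, A x y ≤ B x y)
    (n : ℕ) (x y : ι) : (A ^ n) x y ≤ (B ^ n) x y := by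
  have hB0 : ∀ x y, 0 ≤ B x y := fun x y => (hA0 x y).trans (hAB x y)
  induction n generalizing x y with
  | zero => rw [pow_zero, pow_zero]
  | succ n ih =>
    rw [pow_succ, pow_succ, Matrix.mul_apply, Matrix.mul_apply]
    exact Finset.sum_le_sum fun w _ => mul_le_mul (ih x w) (hAB w y) (hA0 w y)
      (abs_mpow_nonneg B hB0 n x w)

theorem abs_mrow_one (B : Matrix ι ι ℝ) (hB : ∀ x, ∑ y, B x y = 1) (n : ℕ) (x : ι) :
    ∑ y, (B ^ n) x y = 1 := by
  induction n generalizing x with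
  | zero =>
    rw [pow_zero]
    simp [Matrix.one_apply]
  | succ n ih =>
    simp only [pow_succ', Matrix.mul_apply]
    rw [Finset.sum_comm]
    simp only [← Finset.mul_sum, ih, mul_one]
    exact hB x

theorem abs_mcol_le (A : Matrix ι ι ℝ) (hA0 : ∀ x y, 0 ≤ A x y) (hcol : ∀ y, ∑ x, A x y ≤ 1)
    (n : ℕ) (y : ι) : ∑ x, (A ^ n) x y ≤ 1 := by
  induction n generalizing y with
  | zero =>
    rw [pow_zero]
    simp [Matrix.one_apply]
  | succ n ih =>
    simp only [pow_succ, Matrix.mul_apply]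
    rw [Finset.sum_comm]
    simp only [← Finset.sum_mul]
    refine (Finset.sum_le_sum fun w _ => mul_le_mul_of_nonneg_right (ih w) (hA0 w y)).trans ?_
    simp only [one_mul]
    exact hcol y

theorem pow_trunc (A B : Matrix ι ι ℝ) (τ : ℝ) (hA0 : ∀ x y, 0 ≤ A x y)
    (hAB : ∀ x y, A x y ≤ B x y) (hB : ∀ x, ∑ y, B x y = 1) (hA : ∀ x, 1 - τ ≤ ∑ y, A x y)
    (n : ℕ) (x y : ι) : (B ^ n) x y - n * τ ≤ (A ^ n) x y := by
  have hA1 : ∀ x, ∑ y, A x y ≤ 1 := fun x =>
    (Finset.sum_le_sum fun y _ => hAB x y).trans (hB x).le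
  have hτ : 0 ≤ τ := by
    have := (hA x).trans (hA1 x)
    linarith
  have hrow : ∀ (n : ℕ) (x : ι), 1 - n * τ ≤ ∑ y, (A ^ n) x y := by
    intro n
    induction n with
    | zero =>
      intro x
      rw [pow_zero]
      simp [Matrix.one_apply]
    | succ n ih =>
      intro x
      have h1 : ∑ y, (A ^ (n + 1)) x y = ∑ w, A x w * ∑ y, (A ^ n) w y := by
        simp only [pow_succ', Matrix.mul_apply]
        rw [Finset.sum_comm]
        simp only [← Finset.mul_sum]
      have h2 : ∑ w, A x w * (1 - n * τ) ≤ ∑ w, A x w * ∑ y, (A ^ n) w y :=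
        Finset.sum_le_sum fun w _ => mul_le_mul_of_nonneg_left (ih w) (hA0 x w)
      have h3 : ∑ w, A x w * (1 - n * τ) = ∑ w, A x w - n * τ * ∑ w, A x w := by
        rw [← Finset.sum_mul]
        ring
      have h4 : n * τ * ∑ w, A x w ≤ n * τ * 1 :=
        mul_le_mul_of_nonneg_left (hA1 x) (by positivity)
      have h5 := hA x
      rw [h1]
      push_cast
      linarith
  have h1 : (B ^ n) x y - (A ^ n) x y ≤ ∑ y, ((B ^ n) x y - (A ^ n) x y) :=
    Finset.single_le_sum (f := fun y => (B ^ n) x y - (A ^ n) x y)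
      (fun y _ => sub_nonneg.mpr (abs_mpow_le A B hA0 hAB n x y)) (Finset.mem_univ y)
  rw [Finset.sum_sub_distrib, abs_mrow_one B hB] at h1
  have h2 := hrow n x
  linarith

theorem pow_range {d L : ℕ} [NeZero L] (A : Matrix (Tor d L) (Tor d L) ℝ) (R : ℕ)
    (hA : ∀ x y, A x y ≠ 0 → tn (x - y) ≤ R) (n : ℕ) (x y : Tor d L) (h : (A ^ n) x y ≠ 0) :
    tn (x - y) ≤ n * R := by
  induction n generalizing y with
  | zero =>
    rw [pow_zero, Matrix.one_apply] at h
    have hxy : x = y := by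
      by_contra hne
      rw [if_neg hne] at h
      exact h rfl
    rw [hxy, sub_self, tn_zero]
    exact Nat.zero_le _
  | succ n ih =>
    rw [pow_succ, Matrix.mul_apply] at h
    obtain ⟨w, _, hw⟩ := Finset.exists_ne_zero_of_sum_ne_zero h
    have h1 := ih w (left_ne_zero_of_mul hw)
    have h2 := hA w y (right_ne_zero_of_mul hw)
    have h3 := tn_add (x - w) (w - y)
    rw [sub_add_sub_cancel] at h3
    calc tn (x - y) ≤ tn (x - w) + tn (w - y) := h3
      _ ≤ n * R + R := add_le_add h1 h2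
      _ = (n + 1) * R := by ring

theorem telescope (A : Matrix ι ι ℝ) (hA0 : ∀ x y, 0 ≤ A x y) (hrow : ∀ x, ∑ y, A x y ≤ 1)
    (hcol : ∀ y, ∑ x, A x y ≤ 1) (Om' Om : Finset ι) (n : ℕ) (hn : 1 ≤ n)
    (hOm : ∀ k ≤ n, ∀ x ∈ Om', ∀ y, (A ^ k) x y ≠ 0 → y ∈ Om) (u : ι → ℝ) :
    ∑ x ∈ Om', ∑ y, (A ^ n) x y * (u x - u y) ^ 2 ≤
      n ^ 2 * ∑ x ∈ Om, ∑ y ∈ Om, A x y * (u x - u y) ^ 2 := by
  have hsub : Om' ⊆ Om := by
    intro x hx
    refine hOm 0 (Nat.zero_le _) x hx x ?_
    rw [pow_zero, Matrix.one_apply_eq]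
    exact one_ne_zero
  have hin : ∀ x, 0 ≤ ∑ y ∈ Om, A x y * (u x - u y) ^ 2 := fun x =>
    Finset.sum_nonneg fun y _ => mul_nonneg (hA0 x y) (sq_nonneg _)
  induction n, hn using Nat.le_induction with
  | base =>
    rw [Nat.cast_one, one_pow, one_mul]
    refine le_trans ?_ (Finset.sum_le_sum_of_subset_of_nonneg hsub fun x _ _ => hin x)
    refine Finset.sum_le_sum fun x hx => ?_
    rw [← Finset.sum_subset (Finset.subset_univ Om)]
    · exact le_of_eq (Finset.sum_congr rfl fun y _ => by rw [pow_one])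
    · intro y _ hy
      have h0 : (A ^ 1) x y = 0 := by
        by_contra h
        exact hy (hOm 1 le_rfl x hx y h)
      rw [h0, zero_mul]
  | succ n hn ih =>
    have hOmn := fun k (hk : k ≤ n) => hOm k (hk.trans (Nat.le_succ n))
    have ih' := ih hOmn
    set Q := ∑ x ∈ Om, ∑ y ∈ Om, A x y * (u x - u y) ^ 2 with hQ
    have hn0 : (1 : ℝ) ≤ n := by exact_mod_cast hn
    have hA' := abs_mpow_nonneg A hA0
    -- the first term
    have hfirst : ∑ x ∈ Om', ∑ w, (A ^ n) x w * ((u x - u w) ^ 2 * ∑ y, A w y) ≤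
        ∑ x ∈ Om', ∑ w, (A ^ n) x w * (u x - u w) ^ 2 := by
      refine Finset.sum_le_sum fun x _ => Finset.sum_le_sum fun w _ => ?_
      refine mul_le_mul_of_nonneg_left ?_ (hA' n x w)
      exact mul_le_of_le_one_right (sq_nonneg _) (hrow w)
    -- the second term
    have hsecond : ∑ x ∈ Om', ∑ w, (A ^ n) x w * ∑ y, A w y * (u w - u y) ^ 2 ≤ Q := by
      have h1 : ∀ x ∈ Om', ∑ w, (A ^ n) x w * ∑ y, A w y * (u w - u y) ^ 2 =
          ∑ w ∈ Om, (A ^ n) x w * ∑ y ∈ Om, A w y * (u w - u y) ^ 2 := by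
        intro x hx
        rw [← Finset.sum_subset (Finset.subset_univ Om)]
        · refine Finset.sum_congr rfl fun w _ => ?_
          by_cases hw : (A ^ n) x w = 0
          · rw [hw, zero_mul, zero_mul]
          · congr 1
            symm
            refine Finset.sum_subset (Finset.subset_univ Om) fun y _ hy => ?_
            have h0 : A w y = 0 := by
              by_contra h
              apply hy
              refine hOm (n + 1) le_rfl x hx y ?_
              rw [pow_succ, Matrix.mul_apply]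
              refine ne_of_gt (lt_of_lt_of_le ?_ (Finset.single_le_sum
                (f := fun w => (A ^ n) x w * A w y)
                (fun w _ => mul_nonneg (hA' n x w) (hA0 w y)) (Finset.mem_univ w)))
              exact mul_pos (lt_of_le_of_ne (hA' n x w) (Ne.symm hw))
                (lt_of_le_of_ne (hA0 w y) (Ne.symm h))
            rw [h0, zero_mul]
        · intro w _ hw
          have h0 : (A ^ n) x w = 0 := by
            by_contra h
            exact hw (hOmn n le_rfl x hx w h)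
          rw [h0, zero_mul]
      rw [Finset.sum_congr rfl h1, Finset.sum_comm]
      refine Finset.sum_le_sum fun w _ => ?_
      rw [← Finset.sum_mul]
      refine mul_le_of_le_one_left (hin w) ?_
      exact (Finset.sum_le_sum_of_subset_of_nonneg (Finset.subset_univ Om')
        fun x _ _ => hA' n x w).trans (abs_mcol_le A hA0 hcol n w)
    -- the sum
    have hmain : (n : ℝ) * ∑ x ∈ Om', ∑ y, (A ^ (n + 1)) x y * (u x - u y) ^ 2 ≤
        (n + 1) * ∑ x ∈ Om', ∑ w, (A ^ n) x w * ((u x - u w) ^ 2 * ∑ y, A w y) +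
          n * (n + 1) * ∑ x ∈ Om', ∑ w, (A ^ n) x w * ∑ y, A w y * (u w - u y) ^ 2 := by
      rw [Finset.mul_sum, Finset.mul_sum, Finset.mul_sum, ← Finset.sum_add_distrib]
      refine Finset.sum_le_sum fun x _ => ?_
      have e1 : (n : ℝ) * ∑ y, (A ^ (n + 1)) x y * (u x - u y) ^ 2 =
          ∑ w, ∑ y, (A ^ n) x w * A w y * (n * (u x - u y) ^ 2) := by
        rw [Finset.mul_sum, Finset.sum_comm]
        refine Finset.sum_congr rfl fun y _ => ?_
        rw [pow_succ, Matrix.mul_apply, Finset.sum_mul, Finset.mul_sum]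
        exact Finset.sum_congr rfl fun w _ => by ring
      rw [e1, Finset.mul_sum, Finset.mul_sum, ← Finset.sum_add_distrib]
      refine Finset.sum_le_sum fun w _ => ?_
      have e2 : ((n : ℝ) + 1) * ((A ^ n) x w * ((u x - u w) ^ 2 * ∑ y, A w y)) +
          n * (n + 1) * ((A ^ n) x w * ∑ y, A w y * (u w - u y) ^ 2) =
          ∑ y, (A ^ n) x w * A w y *
            ((n + 1) * (u x - u w) ^ 2 + n * (n + 1) * (u w - u y) ^ 2) := by
        simp only [Finset.mul_sum]
        rw [← Finset.sum_add_distrib]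
        exact Finset.sum_congr rfl fun y _ => by ring
      rw [e2]
      refine Finset.sum_le_sum fun y _ => ?_
      refine mul_le_mul_of_nonneg_left ?_ (mul_nonneg (hA' n x w) (hA0 w y))
      nlinarith [sq_nonneg ((u x - u w) - n * (u w - u y))]
    have h2 : (n : ℝ) * ∑ x ∈ Om', ∑ y, (A ^ (n + 1)) x y * (u x - u y) ^ 2 ≤
        n * ((n + 1) ^ 2 * Q) := by
      refine hmain.trans ?_
      have h3 := mul_le_mul_of_nonneg_left (hfirst.trans ih') (by positivity : (0 : ℝ) ≤ n + 1)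
      have h4 := mul_le_mul_of_nonneg_left hsecond (by positivity : (0 : ℝ) ≤ n * (n + 1))
      refine (add_le_add h3 h4).trans (le_of_eq ?_)
      ring
    have h5 := le_of_mul_le_mul_left h2 (by linarith : (0 : ℝ) < n)
    push_cast
    exact h5

end Pool.Agent.ANT
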