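import Pool.Agent.Kin.SHat

/-!
# ANT, form part: Fourier identities on the torus

`DT` = nearest neighbour Dirichlet form, `QT ζ η` = the form
`(1/2) ∑ η² |M(x-y)|² (u x - u y)²` of the free medium.
-/

open Matrix Finset

noncomputable section

namespace Pool.Agent.ANT

open Pool.Agent.Kin

variable {d L : ℕ} [NeZero L]

/-- nearest neighbour Dirichlet form of the torus -/
def DT (a : Tor d L → ℝ) : ℝ := ∑ x, ∑ j, (a (x + Pi.single j 1) - a x) ^ 2

/-- the form `Q` of the free medium at spectral parameter `ζ`, absorption `η` -/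
def QT (ζ : ℂ) (η : ℝ) (u : Tor d L → ℝ) : ℝ :=
  (1 / 2) * ∑ x, ∑ y, η ^ 2 * ‖Mx ζ (x - y)‖ ^ 2 * (u x - u y) ^ 2

/-- the Fourier transform -/
def FT (u : Tor d L → ℝ) (q : Tor d L) : ℂ := ∑ x, (u x : ℂ) * ch q x

lemma sub_ch (q z : Tor d L) : ‖1 - ch q z‖ ^ 2 = 2 * (1 - (ch q z).re) := by
  have h1 : ‖ch q z‖ ^ 2 = 1 := by rw [ch_norm]; norm_num
  rw [Complex.sq_norm, Complex.normSq_apply] at h1 ⊢
  simp only [Complex.sub_re, Complex.sub_im, Complex.one_re, Complex.one_im]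
  linarith

lemma FT_shift (u : Tor d L → ℝ) (z q : Tor d L) :
    FT (fun x => u x - u (x - z)) q = (1 - ch q z) * FT u q := by
  unfold FT
  have h1 : ∑ x, ((u (x - z) : ℝ) : ℂ) * ch q x = ch q z * ∑ x, (u x : ℂ) * ch q x := by
    rw [← Equiv.sum_comp (Equiv.addRight z)]
    rw [Finset.mul_sum]
    refine Finset.sum_congr rfl fun x _ => ?_
    simp only [Equiv.coe_addRight, add_sub_cancel_right]
    rw [ch_add_right]
    ring
  rw [sub_mul, one_mul, ← h1, ← Finset.sum_sub_distrib]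
  refine Finset.sum_congr rfl fun x _ => ?_
  push_cast
  ring

lemma FT_parseval (u : Tor d L → ℝ) :
    ∑ x, u x ^ 2 = (1 / (L : ℝ) ^ d) * ∑ q, ‖FT u q‖ ^ 2 := by
  have h := parseval (fun x => ((u x : ℝ) : ℂ))
  have hL : (L : ℝ) ^ d ≠ 0 := pow_ne_zero _ (Nat.cast_ne_zero.2 (NeZero.ne L))
  unfold FT
  rw [h]
  field_simp
  refine Finset.sum_congr rfl fun x _ => ?_
  simp

lemma sq_shift (u : Tor d L → ℝ) (z : Tor d L) :
    ∑ x, (u x - u (x - z)) ^ 2 =
      (1 / (L : ℝ) ^ d) * ∑ q, 2 * (1 - (ch q z).re) * ‖FT u q‖ ^ 2 := by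
  rw [FT_parseval]
  congr 1
  refine Finset.sum_congr rfl fun q _ => ?_
  rw [FT_shift, norm_mul, mul_pow, sub_ch]

lemma QT_eq (ζ : ℂ) (η : ℝ) (u : Tor d L → ℝ) :
    QT ζ η u = (1 / (L : ℝ) ^ d) *
      ∑ q, η ^ 2 * (ST ζ (0 : Tor d L) - ST ζ q) * ‖FT u q‖ ^ 2 := by
  unfold QT
  have h1 : ∑ x, ∑ y, η ^ 2 * ‖Mx ζ (x - y)‖ ^ 2 * (u x - u y) ^ 2 =
      ∑ z : Tor d L, η ^ 2 * ‖Mx ζ z‖ ^ 2 * ∑ x, (u x - u (x - z)) ^ 2 := by
    have h2 : ∀ x : Tor d L, ∑ y, η ^ 2 * ‖Mx ζ (x - y)‖ ^ 2 * (u x - u y) ^ 2 =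
        ∑ z, η ^ 2 * ‖Mx ζ z‖ ^ 2 * (u x - u (x - z)) ^ 2 := by
      intro x
      rw [← Equiv.sum_comp (Equiv.subLeft x)]
      refine Finset.sum_congr rfl fun z _ => ?_
      simp only [Equiv.subLeft_apply, sub_sub_cancel]
    simp only [h2]
    rw [Finset.sum_comm]
    refine Finset.sum_congr rfl fun z _ => ?_
    rw [Finset.mul_sum]
  rw [h1]
  simp only [sq_shift]
  have h3 : ∀ z : Tor d L, η ^ 2 * ‖Mx ζ z‖ ^ 2 *
      ((1 / (L : ℝ) ^ d) * ∑ q, 2 * (1 - (ch q z).re) * ‖FT u q‖ ^ 2) =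
      (1 / (L : ℝ) ^ d) * ∑ q, 2 * η ^ 2 * (‖Mx ζ z‖ ^ 2 * (1 - (ch q z).re)) *
        ‖FT u q‖ ^ 2 := by
    intro z
    rw [Finset.mul_sum, Finset.mul_sum, Finset.mul_sum]
    refine Finset.sum_congr rfl fun q _ => ?_
    ring
  simp only [h3]
  rw [← Finset.mul_sum, Finset.sum_comm]
  have h4 : ∀ q : Tor d L, ∑ z, 2 * η ^ 2 * (‖Mx ζ z‖ ^ 2 * (1 - (ch q z).re)) * ‖FT u q‖ ^ 2 =
      2 * (η ^ 2 * (ST ζ (0 : Tor d L) - ST ζ q) * ‖FT u q‖ ^ 2) := by
    intro q
    rw [ST_diff, Finset.mul_sum, Finset.sum_mul, Finset.mul_sum]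
    refine Finset.sum_congr rfl fun z _ => ?_
    ring
  simp only [h4]
  rw [← Finset.mul_sum]
  ring

lemma DT_eq (a : Tor d L → ℝ) :
    DT a = (1 / (L : ℝ) ^ d) * ∑ q, en q * ‖FT a q‖ ^ 2 := by
  unfold DT
  rw [Finset.sum_comm]
  have h1 : ∀ j : Fin d, ∑ x : Tor d L, (a (x + Pi.single j 1) - a x) ^ 2 =
      (1 / (L : ℝ) ^ d) * ∑ q : Tor d L, (2 - 2 * Real.cos (ang (q j))) * ‖FT a q‖ ^ 2 := by
    intro j
    have h2 := sq_shift a (-(Pi.single j 1))
    simp only [sub_neg_eq_add] at h2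
    rw [show ∑ x : Tor d L, (a (x + Pi.single j 1) - a x) ^ 2 =
      ∑ x : Tor d L, (a x - a (x + Pi.single j 1)) ^ 2 from
      Finset.sum_congr rfl fun x _ => by ring]
    rw [h2]
    congr 1
    refine Finset.sum_congr rfl fun q _ => ?_
    have h3 : (ch q (-(Pi.single j 1 : Tor d L))).re = Real.cos (ang (q j)) := by
      rw [ch_neg_right, hdiag_ch_single, ch1_eq]
      simp [Complex.cos_ofReal_re]
    rw [h3]
    ring
  simp only [h1]
  rw [← Finset.mul_sum, Finset.sum_comm]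
  congr 1
  refine Finset.sum_congr rfl fun q _ => ?_
  rw [en, Finset.sum_mul]

/-- convolution with the kernel whose transform is the even function `w` -/
def conv (w : Tor d L → ℝ) (u : Tor d L → ℝ) (x : Tor d L) : ℝ :=
  ∑ y, ((1 / (L : ℝ) ^ d) * ∑ p, w p * (ch p (x - y)).re) * u y

lemma FT_conv (w : Tor d L → ℝ) (hw : ∀ q, w (-q) = w q) (u : Tor d L → ℝ) (q : Tor d L) :
    FT (conv w u) q = (w q : ℂ) * FT u q := by
  have hL : (L : ℂ) ^ d ≠ 0 := pow_ne_zero _ (Nat.cast_ne_zero.2 (NeZero.ne L))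
  -- the transform of the kernel
  have hre : ∀ z : ℂ, ((z.re : ℝ) : ℂ) = (z + star z) / 2 := by
    intro z
    apply Complex.ext <;> simp
  have hk : ∑ x : Tor d L, (((1 / (L : ℝ) ^ d) * ∑ p, w p * (ch p x).re : ℝ) : ℂ) * ch q x =
      (w q : ℂ) := by
    have h1 : ∀ x : Tor d L, (((1 / (L : ℝ) ^ d) * ∑ p, w p * (ch p x).re : ℝ) : ℂ) * ch q x =
        (1 / (L : ℂ) ^ d) * ∑ p, (w p : ℂ) / 2 * (ch (p + q) x + ch (-p + q) x) := by
      intro x
      push_cast
      rw [mul_assoc, Finset.sum_mul]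
      congr 1
      refine Finset.sum_congr rfl fun p _ => ?_
      rw [hre, ch_add_left, ch_add_left, ch_neg_left]
      ring
    simp only [h1]
    rw [← Finset.mul_sum, Finset.sum_comm]
    have h2 : ∀ p : Tor d L, ∑ x : Tor d L, (w p : ℂ) / 2 * (ch (p + q) x + ch (-p + q) x) =
        (w p : ℂ) / 2 * ((if p = -q then (L : ℂ) ^ d else 0) + if p = q then (L : ℂ) ^ d else 0) := by
      intro p
      rw [← Finset.mul_sum, Finset.sum_add_distrib]
      congr 2
      · have := sum_ch (p + q)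
        simp only [ch_comm _ (p + q)] at this
        rw [this]
        simp only [add_eq_zero_iff_eq_neg]
      · have := sum_ch (-p + q)
        simp only [ch_comm _ (-p + q)] at this
        rw [this]
        have e : (-p + q = 0) ↔ (p = q) := by
          constructor
          · intro h
            exact (neg_add_eq_zero.1 h)
          · rintro rfl
            simp
        simp only [e]
    simp only [h2]
    simp only [mul_add, mul_ite, mul_zero, Finset.sum_add_distrib, Finset.sum_ite_eq',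
      Finset.mem_univ, if_true, hw]
    field_simp
    ring
  unfold FT conv
  have h3 : ∀ x : Tor d L, ((∑ y, ((1 / (L : ℝ) ^ d) * ∑ p, w p * (ch p (x - y)).re) * u y : ℝ) : ℂ) *
      ch q x = ∑ y, ((((1 / (L : ℝ) ^ d) * ∑ p, w p * (ch p (x - y)).re : ℝ) : ℂ) * ch q (x - y)) *
        ((u y : ℂ) * ch q y) := by
    intro x
    rw [Complex.ofReal_sum, Finset.sum_mul]
    refine Finset.sum_congr rfl fun y _ => ?_
    have e : ch q x = ch q (x - y) * ch q y := by rw [← ch_add_right, sub_add_cancel]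
    rw [e, Complex.ofReal_mul]
    ring
  simp only [h3]
  rw [Finset.sum_comm, Finset.mul_sum]
  refine Finset.sum_congr rfl fun y _ => ?_
  rw [← Finset.sum_mul]
  congr 1
  rw [← hk, ← Equiv.sum_comp (Equiv.addRight y)]
  refine Finset.sum_congr rfl fun x _ => ?_
  simp only [Equiv.coe_addRight, add_sub_cancel_right]

/-- symbol domination gives the lower form bound with an explicit minimiser -/
lemma form_of_symbol (t : Tor d L → ℝ) (K mu : ℝ) (hK : 0 < K) (hmu : 0 < mu)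
    (h : ∀ q : Tor d L, (en q / K) * mu / (en q / K + mu) ≤ t q) (u : Tor d L → ℝ) :
    ∃ a : Tor d L → ℝ, DT a / K + mu * ∑ x, (u x - a x) ^ 2 ≤
      (1 / (L : ℝ) ^ d) * ∑ q, t q * ‖FT u q‖ ^ 2 := by
  have hN : 0 < (L : ℝ) ^ d := pow_pos (Nat.cast_pos.2 (NeZero.pos L)) _
  set w : Tor d L → ℝ := fun q => mu / (en q / K + mu) with hw
  have hwe : ∀ q, w (-q) = w q := by
    intro q
    simp only [hw, en_neg]
  refine ⟨conv w u, ?_⟩
  rw [DT_eq, FT_parseval]
  have h1 : ∀ q : Tor d L, FT (fun x => u x - conv w u x) q = ((1 - w q : ℝ) : ℂ) * FT u q := by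
    intro q
    have : FT (fun x => u x - conv w u x) q = FT u q - FT (conv w u) q := by
      unfold FT
      rw [← Finset.sum_sub_distrib]
      refine Finset.sum_congr rfl fun x _ => ?_
      push_cast
      ring
    rw [this, FT_conv w hwe]
    push_cast
    ring
  have h2 : 1 / (L : ℝ) ^ d * ∑ q, en q * ‖FT (conv w u) q‖ ^ 2 / K +
      mu * (1 / (L : ℝ) ^ d * ∑ q, ‖FT (fun x => u x - conv w u x) q‖ ^ 2) =
      1 / (L : ℝ) ^ d * ∑ q, ((en q / K) * mu / (en q / K + mu)) * ‖FT u q‖ ^ 2 := by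
    have e1 : mu * (1 / (L : ℝ) ^ d * ∑ q, ‖FT (fun x => u x - conv w u x) q‖ ^ 2) =
        1 / (L : ℝ) ^ d * ∑ q, mu * ‖FT (fun x => u x - conv w u x) q‖ ^ 2 := by
      rw [← Finset.mul_sum]; ring
    rw [e1, ← mul_add, ← Finset.sum_add_distrib]
    congr 1
    refine Finset.sum_congr rfl fun q _ => ?_
    rw [FT_conv w hwe, h1, norm_mul, norm_mul, Complex.norm_real, Complex.norm_real, mul_pow,
      mul_pow, Real.norm_eq_abs, Real.norm_eq_abs, sq_abs, sq_abs]
    have hen := en_nonneg q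
    have hs : 0 < en q / K + mu := by positivity
    simp only [hw]
    have hs' : en q + mu * K ≠ 0 := by positivity
    field_simp
    ring
  have h3 : 1 / (L : ℝ) ^ d * ∑ q, en q * ‖FT (conv w u) q‖ ^ 2 / K =
      1 / (L : ℝ) ^ d * (∑ q, en q * ‖FT (conv w u) q‖ ^ 2) / K := by
    rw [← Finset.sum_div]; ring
  rw [h3] at h2
  rw [h2]
  apply mul_le_mul_of_nonneg_left _ (by positivity)
  refine Finset.sum_le_sum fun q _ => ?_
  exact mul_le_mul_of_nonneg_right (h q) (by positivity)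

end Pool.Agent.ANT
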