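import Pool.Agent.ANT.Norm
import Pool.Agent.Kin.SHat

/-!
# ANT / LowQ: small momenta

(1) `ST_cont`: by `ST_eq` and `ST_eq` at `0`,
`ST ζ 0 - ST ζ q = (1/L^d) ∑_k (en (k+q) - en k)/(|en k - ζ|² (en (k+q) - conj ζ))`, and
`|en (k+q) - en k| ≤ ∑_j 4 |sin (ang q_j/2)| ≤ 4 d rh q` (`cos α - cos β` product formula),
`|en (k+q) - conj ζ| ≥ Im ζ`, `(1/L^d) ∑_k 1/|en k - ζ|² = ST ζ 0`.
(2) `count_rh`: all `q` with `|valMinAbs q_j| ≤ x := k L/π` have `|sin (π q_j/L)| ≤ π |q_j|/L ≤ k`; their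
number is at least `(2 ⌊x⌋ + 1)^d ≥ x^d` by `card_tn_ge` (`k ≤ 1` gives `2 ⌊x⌋ + 1 ≤ L`).
(3) `phase`: `ch q z = exp (i ∑_j 2 π qj zj/L)` with `qj = valMinAbs (q j)`, `zj = valMinAbs (z j)`
(`ang (a * b)` and `2 π valMinAbs a valMinAbs b/L` differ by a multiple of `2 π`), and
`2 |qj|/L ≤ |sin (π qj/L)| = |sin (ang (q j)/2)| ≤ rh q` (Jordan), so
`|phase| ≤ ∑_j π rh(q) |zj| ≤ d π k r ≤ 1`, and `cos 1 ≥ 1/2`.
-/

open Matrix Finset

noncomputable section

namespace Pool.Agent.ANT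

open Pool.Agent.Kin

variable {d L : ℕ}

/-! ### auxiliary facts about `ch1` -/

lemma lowq_ch1_int [NeZero L] (n : ℤ) :
    ch1 ((n : ℤ) : ZMod L) = Complex.exp (((2 * Real.pi * n / L : ℝ) : ℂ) * Complex.I) := by
  have h : ch1 ((n : ℤ) : ZMod L) = ZMod.stdAddChar ((n : ℤ) : ZMod L) := by
    have h0 : (((((n : ℤ) : ZMod L).val : ℤ) : ZMod L)) = ((n : ℤ) : ZMod L) := by
      rw [Int.cast_natCast, ZMod.natCast_zmod_val]
    conv_rhs => rw [← h0]
    rw [ZMod.stdAddChar_coe, ch1, ang]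
    congr 1
    push_cast
    ring
  rw [h, ZMod.stdAddChar_coe]
  congr 1
  push_cast
  ring

lemma lowq_norm_sub_one (θ : ℝ) :
    ‖Complex.exp ((θ : ℂ) * Complex.I) - 1‖ = 2 * |Real.sin (θ / 2)| := by
  rw [mul_comm, Complex.norm_exp_I_mul_ofReal_sub_one, norm_mul, Real.norm_eq_abs, Real.norm_eq_abs,
    abs_of_nonneg (by norm_num : (0 : ℝ) ≤ 2)]

lemma lowq_ch1_sub_one [NeZero L] (a : ZMod L) : ‖ch1 a - 1‖ = 2 * |Real.sin (ang a / 2)| :=
  lowq_norm_sub_one _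

lemma lowq_sin [NeZero L] (a : ZMod L) :
    |Real.sin (ang a / 2)| = |Real.sin (Real.pi * a.valMinAbs / L)| := by
  have h1 := lowq_ch1_sub_one a
  have h2 : ch1 a = Complex.exp (((2 * Real.pi * a.valMinAbs / L : ℝ) : ℂ) * Complex.I) := by
    conv_lhs => rw [← ZMod.coe_valMinAbs a]
    exact lowq_ch1_int _
  rw [h2, lowq_norm_sub_one] at h1
  have h3 : 2 * Real.pi * (a.valMinAbs : ℝ) / L / 2 = Real.pi * a.valMinAbs / L := by ring
  rw [h3] at h1
  linarith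

lemma lowq_sin_le_rh (q : Tor d L) (j : Fin d) : |Real.sin (ang (q j) / 2)| ≤ rh q :=
  le_ciSup (f := fun j => |Real.sin (ang (q j) / 2)|) (Set.finite_range _).bddAbove j

lemma lowq_abs_le [NeZero L] (a : ZMod L) : |(a.valMinAbs : ℝ)| ≤ L / 2 := by
  have h := ZMod.natAbs_valMinAbs_le a
  have hL : (a.valMinAbs.natAbs : ℝ) ≤ ((L / 2 : ℕ) : ℝ) := by exact_mod_cast h
  have h2 : (((L / 2 : ℕ)) : ℝ) ≤ (L : ℝ) / 2 := Nat.cast_div_le
  have h3 : |(a.valMinAbs : ℝ)| = (a.valMinAbs.natAbs : ℝ) := by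
    rw [Nat.cast_natAbs, Int.cast_abs]
  rw [h3]
  exact hL.trans h2

/-- Jordan's inequality -/
lemma lowq_jordan [NeZero L] (a : ZMod L) :
    2 * |(a.valMinAbs : ℝ)| / L ≤ |Real.sin (ang a / 2)| := by
  have hL : (0 : ℝ) < L := by exact_mod_cast Nat.pos_of_ne_zero (NeZero.ne L)
  have hpi := Real.pi_pos
  rw [lowq_sin]
  have hx : |Real.pi * (a.valMinAbs : ℝ) / L| = Real.pi * |(a.valMinAbs : ℝ)| / L := by
    rw [abs_div, abs_mul, abs_of_pos hpi, abs_of_pos hL]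
  have h1 : |Real.pi * (a.valMinAbs : ℝ) / L| ≤ Real.pi / 2 := by
    rw [hx, div_le_iff₀ hL]
    have := lowq_abs_le a
    nlinarith
  have h2 := Real.mul_abs_le_abs_sin h1
  rw [hx] at h2
  calc 2 * |(a.valMinAbs : ℝ)| / L = 2 / Real.pi * (Real.pi * |(a.valMinAbs : ℝ)| / L) := by
        field_simp
    _ ≤ _ := h2

lemma lowq_sin_le [NeZero L] (a : ZMod L) :
    |Real.sin (ang a / 2)| ≤ Real.pi * |(a.valMinAbs : ℝ)| / L := by
  have hL : (0 : ℝ) < L := by exact_mod_cast Nat.pos_of_ne_zero (NeZero.ne L)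
  have hpi := Real.pi_pos
  rw [lowq_sin]
  have hx : |Real.pi * (a.valMinAbs : ℝ) / L| = Real.pi * |(a.valMinAbs : ℝ)| / L := by
    rw [abs_div, abs_mul, abs_of_pos hpi, abs_of_pos hL]
  rw [← hx]
  exact Real.abs_sin_le_abs

lemma lowq_en_diff [NeZero L] (k q : Tor d L) : |en (k + q) - en k| ≤ 4 * d * rh q := by
  have h1 : en (k + q) - en k =
      ∑ j, (2 * Real.cos (ang (k j)) - 2 * Real.cos (ang (k j + q j))) := by
    unfold en
    rw [← Finset.sum_sub_distrib]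
    refine Finset.sum_congr rfl fun j _ => ?_
    rw [Pi.add_apply]
    ring
  rw [h1]
  have hcos : ∀ b : ZMod L, Real.cos (ang b) = (ch1 b).re := by
    intro b
    rw [ch1, Complex.exp_ofReal_mul_I_re]
  have h2 : ∀ j : Fin d, |2 * Real.cos (ang (k j)) - 2 * Real.cos (ang (k j + q j))| ≤ 4 * rh q := by
    intro j
    rw [hcos, hcos, ch1_add]
    have e1 : 2 * (ch1 (k j)).re - 2 * (ch1 (k j) * ch1 (q j)).re =
        -(2 * (ch1 (k j) * (ch1 (q j) - 1)).re) := by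
      rw [mul_sub, mul_one, Complex.sub_re]
      ring
    rw [e1, abs_neg, abs_mul, abs_of_nonneg (by norm_num : (0 : ℝ) ≤ 2)]
    have e2 : |(ch1 (k j) * (ch1 (q j) - 1)).re| ≤ 2 * rh q := by
      refine (Complex.abs_re_le_norm _).trans ?_
      rw [norm_mul, ch1_norm, one_mul, lowq_ch1_sub_one]
      have := lowq_sin_le_rh q j
      linarith
    linarith
  calc |∑ j, (2 * Real.cos (ang (k j)) - 2 * Real.cos (ang (k j + q j)))|
      ≤ ∑ j, |2 * Real.cos (ang (k j)) - 2 * Real.cos (ang (k j + q j))| :=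
        Finset.abs_sum_le_sum_abs _ _
    _ ≤ ∑ _j : Fin d, 4 * rh q := Finset.sum_le_sum fun j _ => h2 j
    _ = 4 * d * rh q := by
        rw [Finset.sum_const, Finset.card_univ, Fintype.card_fin, nsmul_eq_mul]
        ring

lemma lowq_mul_star (z : ℂ) (r : ℝ) :
    ((r : ℂ) - z) * ((r : ℂ) - star z) = ((‖(r : ℂ) - z‖ ^ 2 : ℝ) : ℂ) := by
  have h : ((r : ℂ) - star z) = star ((r : ℂ) - z) := by
    rw [star_sub]
    simp
  rw [h, Complex.ofReal_pow]
  exact Complex.mul_conj' _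

lemma lowq_ST0 [NeZero L] (ζ : ℂ) (h0 : 0 < ζ.im) :
    ST ζ (0 : Tor d L) = (1 / (L : ℝ) ^ d) * ∑ k : Tor d L, 1 / ‖(en k : ℂ) - ζ‖ ^ 2 := by
  have h := ST_eq ζ h0 (0 : Tor d L)
  have h2 : ∀ k : Tor d L, (1 : ℂ) / (((en k : ℂ) - ζ) * ((en (k + 0) : ℂ) - star ζ)) =
      (((1 : ℝ) / ‖(en k : ℂ) - ζ‖ ^ 2 : ℝ) : ℂ) := by
    intro k
    rw [add_zero, lowq_mul_star]
    push_cast
    rfl
  simp_rw [h2] at h
  rw [← Complex.ofReal_sum] at h
  have h3 : ((1 / (L : ℂ) ^ d)) = (((1 / (L : ℝ) ^ d : ℝ)) : ℂ) := by push_cast; rfl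
  rw [h3, ← Complex.ofReal_mul] at h
  exact Complex.ofReal_injective h

theorem ST_cont [NeZero L] (ζ : ℂ) (h0 : 0 < ζ.im) (q : Tor d L) :
    ST ζ (0 : Tor d L) - ST ζ q ≤ 4 * d * rh q / ζ.im * ST ζ (0 : Tor d L) := by
  have hL : (0 : ℝ) < (L : ℝ) ^ d := by
    have : (0 : ℝ) < L := by exact_mod_cast Nat.pos_of_ne_zero (NeZero.ne L)
    positivity
  have hrh := rh_nonneg q
  have h1 : ((ST ζ (0 : Tor d L) : ℂ) - (ST ζ q : ℂ)) =
      (1 / (L : ℂ) ^ d) * ∑ k : Tor d L,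
        (1 / (((en k : ℂ) - ζ) * ((en k : ℂ) - star ζ)) -
          1 / (((en k : ℂ) - ζ) * ((en (k + q) : ℂ) - star ζ))) := by
    rw [ST_eq ζ h0 0, ST_eq ζ h0 q, ← mul_sub, ← Finset.sum_sub_distrib]
    simp only [add_zero]
  have hterm : ∀ k : Tor d L, ‖(1 / (((en k : ℂ) - ζ) * ((en k : ℂ) - star ζ)) -
          1 / (((en k : ℂ) - ζ) * ((en (k + q) : ℂ) - star ζ)))‖ ≤
        (4 * d * rh q / ζ.im) * (1 / ‖(en k : ℂ) - ζ‖ ^ 2) := by
    intro k
    have n1 : ((en k : ℂ) - ζ) ≠ 0 := hdiag_ne ζ h0 k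
    have n2 : ((en k : ℂ) - star ζ) ≠ 0 := by
      intro h
      have := congrArg Complex.im h
      simp at this
      exact h0.ne' this
    have n3 : ((en (k + q) : ℂ) - star ζ) ≠ 0 := by
      intro h
      have := congrArg Complex.im h
      simp at this
      exact h0.ne' this
    have e1 : (1 / (((en k : ℂ) - ζ) * ((en k : ℂ) - star ζ)) -
          1 / (((en k : ℂ) - ζ) * ((en (k + q) : ℂ) - star ζ))) =
        ((en (k + q) - en k : ℝ) : ℂ) /
          ((((en k : ℂ) - ζ) * ((en k : ℂ) - star ζ)) * ((en (k + q) : ℂ) - star ζ)) := by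
      push_cast
      field_simp
      ring
    rw [e1, lowq_mul_star, norm_div, norm_mul, Complex.norm_real, Complex.norm_real, Real.norm_eq_abs,
      Real.norm_eq_abs, abs_of_nonneg (by positivity : (0 : ℝ) ≤ ‖(en k : ℂ) - ζ‖ ^ 2)]
    have e2 : ζ.im ≤ ‖((en (k + q) : ℂ) - star ζ)‖ := by
      have h := Complex.abs_im_le_norm ((en (k + q) : ℂ) - star ζ)
      have h' : ((en (k + q) : ℂ) - star ζ).im = ζ.im := by simp
      rw [h', abs_of_pos h0] at h
      exact h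
    have e3 := lowq_en_diff k q
    have hpos : 0 < ‖(en k : ℂ) - ζ‖ ^ 2 := by positivity
    calc |en (k + q) - en k| / (‖(en k : ℂ) - ζ‖ ^ 2 * ‖((en (k + q) : ℂ) - star ζ)‖)
        ≤ (4 * d * rh q) / (‖(en k : ℂ) - ζ‖ ^ 2 * ζ.im) := by
          refine div_le_div₀ (by positivity) e3 (by positivity) ?_
          exact mul_le_mul_of_nonneg_left e2 hpos.le
      _ = (4 * d * rh q / ζ.im) * (1 / ‖(en k : ℂ) - ζ‖ ^ 2) := by
          field_simp
  have h2 : ‖((ST ζ (0 : Tor d L) : ℂ) - (ST ζ q : ℂ))‖ ≤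
      4 * d * rh q / ζ.im * ST ζ (0 : Tor d L) := by
    rw [h1, norm_mul]
    have e0 : ‖(1 / (L : ℂ) ^ d)‖ = 1 / (L : ℝ) ^ d := by
      rw [norm_div, norm_one, norm_pow, Complex.norm_natCast]
    rw [e0, lowq_ST0 ζ h0]
    calc 1 / (L : ℝ) ^ d * ‖∑ k : Tor d L,
        (1 / (((en k : ℂ) - ζ) * ((en k : ℂ) - star ζ)) -
          1 / (((en k : ℂ) - ζ) * ((en (k + q) : ℂ) - star ζ)))‖
        ≤ 1 / (L : ℝ) ^ d * ∑ k : Tor d L, (4 * d * rh q / ζ.im) * (1 / ‖(en k : ℂ) - ζ‖ ^ 2) := by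
          refine mul_le_mul_of_nonneg_left ?_ (by positivity)
          exact (norm_sum_le _ _).trans (Finset.sum_le_sum fun k _ => hterm k)
      _ = _ := by
          rw [← Finset.mul_sum]
          ring
  have h3 : ST ζ (0 : Tor d L) - ST ζ q ≤ ‖((ST ζ (0 : Tor d L) : ℂ) - (ST ζ q : ℂ))‖ := by
    rw [← Complex.ofReal_sub, Complex.norm_real, Real.norm_eq_abs]
    exact le_abs_self _
  exact h3.trans h2

theorem count_rh [NeZero L] (k : ℝ) (hk : 0 < k) (hk1 : k ≤ 1) :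
    (k * L / Real.pi) ^ d ≤ (((univ : Finset (Tor d L)).filter fun q => rh q ≤ k).card : ℝ) := by
  have hL : (0 : ℝ) < L := by exact_mod_cast Nat.pos_of_ne_zero (NeZero.ne L)
  have hpi := Real.pi_pos
  have hpi3 := Real.pi_gt_three
  set x : ℝ := k * L / Real.pi with hx
  have hx0 : 0 ≤ x := by positivity
  have hx1 : 3 * x < L := by
    rw [hx]
    have : 3 * (k * L / Real.pi) = (3 / Real.pi) * (k * L) := by ring
    rw [this]
    have h3 : 3 / Real.pi < 1 := by rw [div_lt_one hpi]; exact hpi3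
    have h4 : k * L ≤ L := by nlinarith
    have h5 : 0 < k * L := by positivity
    nlinarith
  set r : ℕ := ⌊x⌋₊ with hr
  have hrx : (r : ℝ) ≤ x := Nat.floor_le hx0
  have hxr : x < r + 1 := Nat.lt_floor_add_one x
  have h3r : 3 * r < L := by
    have : (3 : ℝ) * r < L := by linarith
    exact_mod_cast this
  have hcard := card_tn_ge (d := d) (L := L) r (by omega)
  have hsub : ((univ : Finset (Tor d L)).filter fun x => tn x ≤ r) ⊆
      ((univ : Finset (Tor d L)).filter fun q => rh q ≤ k) := by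
    intro q hq
    rw [Finset.mem_filter] at hq ⊢
    refine ⟨Finset.mem_univ _, ?_⟩
    refine Real.iSup_le (fun j => ?_) hk.le
    have h1 := (tn_le_iff.1 hq.2) j
    refine (lowq_sin_le (q j)).trans ?_
    rw [div_le_iff₀ hL]
    have h2 : |((q j).valMinAbs : ℝ)| = ((q j).valMinAbs.natAbs : ℝ) := by
      rw [Nat.cast_natAbs, Int.cast_abs]
    have h3 : (((q j).valMinAbs.natAbs : ℕ) : ℝ) ≤ r := by exact_mod_cast h1
    rw [h2]
    have h4 : Real.pi * x = k * L := by rw [hx]; field_simp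
    nlinarith
  calc x ^ d ≤ ((2 * r + 1 : ℕ) : ℝ) ^ d := by
        refine pow_le_pow_left₀ hx0 ?_ d
        push_cast
        have : (0 : ℝ) ≤ r := Nat.cast_nonneg r
        linarith
    _ = (((2 * r + 1) ^ d : ℕ) : ℝ) := by push_cast; rfl
    _ ≤ (((univ : Finset (Tor d L)).filter fun x => tn x ≤ r).card : ℝ) := by exact_mod_cast hcard
    _ ≤ _ := by exact_mod_cast Finset.card_le_card hsub

theorem phase [NeZero L] (q z : Tor d L) (k r : ℝ) (hq : rh q ≤ k) (hz : (tn z : ℝ) ≤ r)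
    (hr : d * Real.pi * k * r ≤ 1) : 1 / 2 ≤ (ch q z).re := by
  have hL : (0 : ℝ) < L := by exact_mod_cast Nat.pos_of_ne_zero (NeZero.ne L)
  have hpi := Real.pi_pos
  set θ : ℝ := ∑ j, 2 * Real.pi * (((q j).valMinAbs * (z j).valMinAbs : ℤ) : ℝ) / L with hθ
  have h1 : ch q z = Complex.exp ((θ : ℂ) * Complex.I) := by
    unfold ch
    rw [hθ]
    rw [Complex.ofReal_sum, Finset.sum_mul, Complex.exp_sum]
    refine Finset.prod_congr rfl fun j _ => ?_
    rw [← lowq_ch1_int]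
    congr 1
    rw [Int.cast_mul, ZMod.coe_valMinAbs, ZMod.coe_valMinAbs]
  have hk0 : 0 ≤ k := (rh_nonneg q).trans hq
  have h2 : |θ| ≤ d * Real.pi * k * r := by
    rw [hθ]
    refine (Finset.abs_sum_le_sum_abs _ _).trans ?_
    have h3 : ∀ j : Fin d, |2 * Real.pi * (((q j).valMinAbs * (z j).valMinAbs : ℤ) : ℝ) / L| ≤
        Real.pi * k * r := by
      intro j
      have e1 : |2 * Real.pi * (((q j).valMinAbs * (z j).valMinAbs : ℤ) : ℝ) / L| =
          Real.pi * (2 * |((q j).valMinAbs : ℝ)| / L) * |((z j).valMinAbs : ℝ)| := by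
        rw [abs_div, abs_mul, abs_mul, abs_of_pos hL, abs_of_pos hpi,
          abs_of_nonneg (by norm_num : (0 : ℝ) ≤ 2)]
        push_cast
        rw [abs_mul]
        ring
      have e2 : 2 * |((q j).valMinAbs : ℝ)| / L ≤ k :=
        ((lowq_jordan (q j)).trans (lowq_sin_le_rh q j)).trans hq
      have e3 : |((z j).valMinAbs : ℝ)| ≤ r := by
        have h4 : |((z j).valMinAbs : ℝ)| = ((z j).valMinAbs.natAbs : ℝ) := by
          rw [Nat.cast_natAbs, Int.cast_abs]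
        rw [h4]
        have h5 : (z j).valMinAbs.natAbs ≤ tn z := (tn_le_iff.1 (le_refl (tn z))) j
        have h6 : (((z j).valMinAbs.natAbs : ℕ) : ℝ) ≤ tn z := by exact_mod_cast h5
        exact h6.trans hz
      rw [e1]
      refine mul_le_mul (mul_le_mul_of_nonneg_left e2 hpi.le) e3 (abs_nonneg _) (by positivity)
    calc ∑ j, |2 * Real.pi * (((q j).valMinAbs * (z j).valMinAbs : ℤ) : ℝ) / L|
        ≤ ∑ _j : Fin d, Real.pi * k * r := Finset.sum_le_sum fun j _ => h3 j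
      _ = d * Real.pi * k * r := by
          rw [Finset.sum_const, Finset.card_univ, Fintype.card_fin, nsmul_eq_mul]
          ring
  have h3 : |θ| ≤ 1 := h2.trans hr
  rw [h1, Complex.exp_ofReal_mul_I_re]
  have h4 := Real.one_sub_sq_div_two_le_cos (x := θ)
  have h5 : θ ^ 2 ≤ 1 := by
    rw [← sq_abs]
    exact pow_le_one₀ (abs_nonneg _) h3
  linarith

end Pool.Agent.ANT
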