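import Pool.Agent.ANT.Defs

/-!
# ANT / Norm: the sup norm on the torus

Elementary. `natAbs_valMinAbs_neg`, `ZMod.natAbs_valMinAbs_add_le` for `tn_neg`, `tn_add`.
Cardinality: the set is the product (`Fintype.piFinset`) of the sets
`{a : ZMod L | |valMinAbs a| ≤ r}`, which is the image of `Icc (-r) r` (so at most `2r+1`
elements), and for `2r+1 ≤ L` the casts of the elements of `Icc (-r) r` are different and have
`valMinAbs` equal to the integer (`ZMod.valMinAbs_spec`, `ZMod.valMinAbs_mem_Ioc`).
-/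

open Matrix Finset

noncomputable section

namespace Pool.Agent.ANT

open Pool.Agent.Kin

variable {d L : ℕ}

theorem tn_le_iff {x : Tor d L} {r : ℕ} : tn x ≤ r ↔ ∀ j, (x j).valMinAbs.natAbs ≤ r := by
  unfold tn
  rw [Finset.sup_le_iff]
  simp

theorem tn_zero : tn (0 : Tor d L) = 0 := by
  rw [← Nat.le_zero, tn_le_iff]
  intro j
  simp

theorem tn_neg (x : Tor d L) : tn (-x) = tn x := by
  unfold tn
  congr 1
  funext j
  simp

/-- casts of integers -/
private theorem norm_cast_le [NeZero L] (z : ℤ) : ((z : ZMod L)).valMinAbs.natAbs ≤ z.natAbs :=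
  ZMod.natAbs_min_of_le_div_two L _ _ (ZMod.coe_valMinAbs _) (ZMod.natAbs_valMinAbs_le _)

theorem tn_add (x y : Tor d L) : tn (x + y) ≤ tn x + tn y := by
  rw [tn_le_iff]
  intro j
  have h1 := tn_le_iff.1 (le_refl (tn x)) j
  have h2 := tn_le_iff.1 (le_refl (tn y)) j
  have h3 := ZMod.natAbs_valMinAbs_add_le (x j) (y j)
  have h4 := Int.natAbs_add_le (x j).valMinAbs (y j).valMinAbs
  rw [Pi.add_apply]
  omega

theorem tn_single (j : Fin d) : tn (Pi.single j 1 : Tor d L) ≤ 1 := by
  rw [tn_le_iff]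
  intro i
  by_cases h : i = j
  · subst h
    rw [Pi.single_eq_same]
    rcases Nat.eq_zero_or_pos L with h0 | h0
    · subst h0
      exact le_refl 1
    · haveI : NeZero L := ⟨h0.ne'⟩
      have := norm_cast_le (L := L) 1
      simpa using this
  · rw [Pi.single_eq_of_ne h]
    simp

/-- the box in `ℤ^d` -/
private def normBox (d r : ℕ) : Finset (Fin d → ℤ) :=
  Fintype.piFinset fun _ => Icc (-(r : ℤ)) r

private theorem norm_box_card (d r : ℕ) : (normBox d r).card = (2 * r + 1) ^ d := by
  unfold normBox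
  rw [Fintype.card_piFinset]
  simp only [Int.card_Icc, Finset.prod_const, Finset.card_univ, Fintype.card_fin]
  congr 1
  omega

theorem card_tn_le [NeZero L] (r : ℕ) :
    ((univ : Finset (Tor d L)).filter fun x => tn x ≤ r).card ≤ (2 * r + 1) ^ d := by
  classical
  rw [← norm_box_card]
  refine (Finset.card_le_card (?_ : _ ⊆ (normBox d r).image fun z j => ((z j : ℤ) : ZMod L))).trans
    Finset.card_image_le
  intro x hx
  rw [Finset.mem_filter] at hx
  have h := tn_le_iff.1 hx.2
  refine Finset.mem_image.2 ⟨fun j => (x j).valMinAbs, ?_, ?_⟩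
  · unfold normBox
    rw [Fintype.mem_piFinset]
    intro j
    rw [Finset.mem_Icc]
    have := h j
    omega
  · funext j
    exact ZMod.coe_valMinAbs _

theorem card_tn_ge [NeZero L] (r : ℕ) (h : 2 * r + 1 ≤ L) :
    (2 * r + 1) ^ d ≤ ((univ : Finset (Tor d L)).filter fun x => tn x ≤ r).card := by
  classical
  rw [← norm_box_card]
  refine Finset.card_le_card_of_injOn (fun z j => ((z j : ℤ) : ZMod L)) ?_ ?_
  · intro z hz
    have hz' : z ∈ normBox d r := hz
    unfold normBox at hz'
    rw [Fintype.mem_piFinset] at hz'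
    refine Finset.mem_coe.2 (Finset.mem_filter.2 ⟨Finset.mem_univ _, tn_le_iff.2 fun j => ?_⟩)
    have h1 := Finset.mem_Icc.1 (hz' j)
    have h2 := norm_cast_le (L := L) (z j)
    show (((z j : ℤ) : ZMod L)).valMinAbs.natAbs ≤ r
    omega
  · intro z hz w hw hzw
    have hz' : z ∈ normBox d r := hz
    have hw' : w ∈ normBox d r := hw
    unfold normBox at hz' hw'
    rw [Fintype.mem_piFinset] at hz' hw'
    funext j
    have h1 := Finset.mem_Icc.1 (hz' j)
    have h2 := Finset.mem_Icc.1 (hw' j)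
    have h3 : ((z j : ℤ) : ZMod L) = ((w j : ℤ) : ZMod L) := congrFun hzw j
    rw [ZMod.intCast_eq_intCast_iff_dvd_sub] at h3
    have h4 := Int.eq_zero_of_abs_lt_dvd h3 (by
      rw [abs_lt]
      omega)
    omega

end Pool.Agent.ANT
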