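import Pool.Agent.ANT.Norm
import Pool.Agent.APS.Mult
import Pool.Agent.Kin.SHat

/-!
# ANT / PPow: the powers of the walk kernel

`Pk_row`: `ST_zero`. `Pk_symm`: `Mx ζ (-x) = Mx ζ x` (reindex `k ↦ -k`).
`Pk_pow`: as complex matrices `Pk = multR (P̂)`, `P̂ = γ/ρ ST ζ` (`APS.mult_of_conv`, and the argument of
`init0_ST` in `APS/Init0.lean`: `∑_z |Mx z|² conj (ch k z) = ST ζ k`), `APS.mult_mul` gives the powers and
`mult` at `(x,y)` is `(1/L^d) ∑_q P̂(q)^n ch q (x-y)`; take real parts.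
-/

open Matrix Finset

noncomputable section

namespace Pool.Agent.ANT

open Pool.Agent.Kin

variable {d L : ℕ}

theorem Pk_nonneg [NeZero L] (ζ : ℂ) (h0 : 0 < ζ.im) (h1 : 0 < (Mx ζ (0 : Tor d L)).im)
    (x y : Tor d L) : 0 ≤ Pk ζ x y := by
  unfold Pk
  positivity

theorem Pk_symm [NeZero L] (ζ : ℂ) (x y : Tor d L) : Pk ζ x y = Pk ζ y x := by
  unfold Pk
  rw [← Mx_neg ζ (x - y), neg_sub]

theorem Pk_row [NeZero L] (ζ : ℂ) (h0 : 0 < ζ.im) (h1 : 0 < (Mx ζ (0 : Tor d L)).im)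
    (x : Tor d L) : ∑ y, Pk ζ x y = 1 := by
  unfold Pk
  rw [← Finset.mul_sum]
  have h2 : ∑ y : Tor d L, ‖Mx ζ (x - y)‖ ^ 2 = ∑ z : Tor d L, ‖Mx ζ z‖ ^ 2 :=
    Equiv.sum_comp (Equiv.subLeft x) fun z => ‖Mx ζ z‖ ^ 2
  rw [h2, Mx_ward ζ h0]
  have h3 := h0.ne'
  have h4 := h1.ne'
  field_simp

private theorem ppow_ST [NeZero L] (ζ : ℂ) (k : Tor d L) :
    ∑ z : Tor d L, ((‖Mx ζ z‖ ^ 2 : ℝ) : ℂ) * star (ch k z) = ((ST ζ k : ℝ) : ℂ) := by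
  have h1 := congrArg star (ST_eq_sum ζ k)
  rw [star_sum] at h1
  have h2 : star ((ST ζ k : ℝ) : ℂ) = ((ST ζ k : ℝ) : ℂ) := Complex.conj_ofReal _
  rw [h2] at h1
  rw [h1]
  refine Finset.sum_congr rfl fun z _ => ?_
  rw [star_mul']
  congr 1
  exact (Complex.conj_ofReal _).symm

private theorem ppow_mult [NeZero L] (ζ : ℂ) :
    (Pk ζ : Matrix (Tor d L) (Tor d L) ℝ).map Complex.ofRealHom =
      APS.mult fun q : Tor d L => ((ζ.im / (Mx ζ (0 : Tor d L)).im * ST ζ q : ℝ) : ℂ) := by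
  have h2 := APS.mult_of_conv fun z : Tor d L =>
    (((ζ.im / (Mx ζ (0 : Tor d L)).im * ‖Mx ζ z‖ ^ 2 : ℝ)) : ℂ)
  refine Eq.trans ?_ (h2.trans ?_)
  · ext x y
    rfl
  · congr 1
    funext k
    rw [Complex.ofReal_mul, ← ppow_ST ζ k, Finset.mul_sum]
    refine Finset.sum_congr rfl fun z _ => ?_
    rw [Complex.ofReal_mul]
    ring

private theorem ppow_pow [NeZero L] (φ : Tor d L → ℂ) (n : ℕ) :
    APS.mult φ ^ n = APS.mult fun k => φ k ^ n := by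
  induction n with
  | zero =>
    rw [pow_zero, ← APS.mult_one]
    simp only [pow_zero]
  | succ n ih =>
    rw [pow_succ, ih, APS.mult_mul]
    simp only [pow_succ]

theorem Pk_pow [NeZero L] (ζ : ℂ) (n : ℕ) (x y : Tor d L) :
    (Pk ζ ^ n) x y = (1 / (L : ℝ) ^ d) * ∑ q : Tor d L,
      (ζ.im / (Mx ζ (0 : Tor d L)).im * ST ζ q) ^ n * (ch q (x - y)).re := by
  have h1 : ((Pk ζ : Matrix (Tor d L) (Tor d L) ℝ) ^ n).map Complex.ofRealHom =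
      ((Pk ζ : Matrix (Tor d L) (Tor d L) ℝ).map Complex.ofRealHom) ^ n :=
    map_pow (Complex.ofRealHom.mapMatrix) (Pk ζ : Matrix (Tor d L) (Tor d L) ℝ) n
  rw [ppow_mult, ppow_pow] at h1
  have h2 := congrFun (congrFun h1 x) y
  have h3 := congrArg Complex.re h2
  have h4 : (((Pk ζ ^ n).map Complex.ofRealHom) x y).re = (Pk ζ ^ n) x y := rfl
  rw [h4] at h3
  rw [h3]
  show ((1 / (L : ℂ) ^ d) * ∑ k : Tor d L,
    (((ζ.im / (Mx ζ (0 : Tor d L)).im * ST ζ k : ℝ) : ℂ)) ^ n * ch k (x - y)).re = _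
  have h5 : (1 / (L : ℂ) ^ d) = ((1 / (L : ℝ) ^ d : ℝ) : ℂ) := by push_cast; rfl
  rw [h5, Complex.re_ofReal_mul, Complex.re_sum]
  congr 1
  refine Finset.sum_congr rfl fun q _ => ?_
  rw [← Complex.ofReal_pow, Complex.re_ofReal_mul]

end Pool.Agent.ANT
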